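import Mathlib
import Pool.Agent.Y137.SL.Defs
import Pool.Agent.Y1.CT.UnrelDefs

/-!
# Mean square deviations of slopes: definitions
-/

set_option autoImplicit false

namespace Pool.Agent.Q70.SQ

open NumberField Module Pool.Agent.Y137.MV Pool.Agent.Y137.SL Pool.Agent.Y1.CT

/-- The mean of `(log |x| + r) ^ 2` over the roots `x` of the polynomial `P` in the algebraic closure
of the field of `p`-adic numbers. -/
noncomputable def meanSquare (p : ℕ) [Fact p.Prime] (P : Polynomial ℚ) (r : ℝ) : ℝ :=
  ((P.aroots (PadicAlgCl p)).map fun x => (Real.log ‖x‖ + r) ^ 2).sum / P.natDegree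

/-- The mean square deviation of the slopes of a Weil number `π` for `q = p ^ a` from `1 / 2`,
multiplied by `(log q) ^ 2`: the mean of `(log |x| + (log q) / 2) ^ 2` over all `p`-adic conjugates
`x` of `π` (`log |x| = - s log q` if `s` is the slope). -/
noncomputable def weilDeviation (p a : ℕ) [Fact p.Prime] {F : Type*} [Field F] [NumberField F]
    (π : F) : ℝ :=
  meanSquare p (minpoly ℚ π) (a * Real.log p / 2)

/-- The mean square deviation of the slopes of the complex number `α` (algebraic over `ℚ`) from half
of the weight, multiplied by `(log q) ^ 2`: the mean of `(log |x| + log |α|) ^ 2` over all `p`-adic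
conjugates `x` of `α` (`|α| = q ^ (w / 2)` if `w` is the weight). -/
noncomputable def deviation (p : ℕ) [Fact p.Prime] (α : ℂ) : ℝ :=
  meanSquare p (minpoly ℚ α) (Real.log ‖α‖)

/-- The slopes of `α` deviate less than those of the Weil number `π i` for `p ^ a`, in mean square;
if the weight of `α` is even, it is sufficient that the mean square deviation of `α` is less than
the sum of those of `π i` and `π i'`, for all `i'`. -/
def SmallDeviation {ι : Type*} {F : ι → Type*} [∀ i, Field (F i)] [∀ i, NumberField (F i)]
    (p a : ℕ) [Fact p.Prime] (π : ∀ i, F i) (α : ℂ) (i : ι) : Prop :=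
  deviation p α < weilDeviation p a (π i) ∨
    ((∃ w : ℕ, ‖α‖ = ((p : ℝ) ^ a) ^ w) ∧
      ∀ i', deviation p α < weilDeviation p a (π i) + weilDeviation p a (π i'))

end Pool.Agent.Q70.SQ
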