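import Mathlib
import Pool.Agent.Y1.CT.CodimDefs
import Pool.Agent.Q70.SQ.Defs

/-!
# Products of abelian varieties with varieties whose slopes have small mean square deviation:
definitions
-/

set_option autoImplicit false

open CategoryTheory AlgebraicGeometry

universe u v w

namespace Pool.Agent.Q70.SQ

open Polynomial NumberField Pool.Agent.H914 Pool.Agent.H914.VarClass Pool.Agent.H914.VarClass.Obj
  Pool.Agent.W492.BB Pool.Agent.W484.CK Pool.Agent.Y1.CT

/-- The complex number `ρ` is not zero and for each `i` it is unrelated to the field `F i` or its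
slopes have small mean square deviation compared with those of the Weil numbers `π`
(`SmallDeviation`). -/
def GoodNumber (p a : ℕ) [Fact p.Prime] {I : Type} {F : I → Type} [∀ i, Field (F i)]
    [∀ i, NumberField (F i)] (π : ∀ i, F i) (ρ : ℂ) : Prop :=
  ρ ≠ 0 ∧ ∀ i, UnrelatedTo (F i) ρ ∨ SmallDeviation p a π ρ i

/-- All complex roots of the polynomial are good numbers. -/
def GoodRoots (p a : ℕ) [Fact p.Prime] {I : Type} {F : I → Type} [∀ i, Field (F i)]
    [∀ i, NumberField (F i)] (π : ∀ i, F i) (χ : ℚ[X]) : Prop :=
  ∀ ρ : ℂ, aeval ρ χ = 0 → GoodNumber p a π ρ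

section

variable {k : Type u} [Field k] {𝒱 : VarClass k} {C : TheoryData.{u, v, 0} 𝒱 ℚ} {F : Type w}
  [Field F] (H : WeilTheoryData.{u, v, w} C F) {A Z : 𝒱.Obj}

/-- The eigenvalues of `π` on the cohomology of `Z` are roots of a nonzero rational polynomial with
the property `P`. -/
def EigenvaluesIn [CharZero F] (P : ℚ[X] → Prop) (π : Z ⟶ Z) : Prop :=
  ∃ χ : ℚ[X], χ ≠ 0 ∧ (∀ (ρ : F) (v : H.A Z), v ≠ 0 → H.up π v = ρ • v → aeval ρ χ = 0) ∧ P χ

/-- `πA` is the Frobenius endomorphism of an abelian variety `A` over the field with `q`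
elements, isogenous to a product of powers of abelian varieties over this field with characteristic
polynomials `f i`; `Z` is any variety over the field with `q` elements, such that the eigenvalues of
its Frobenius endomorphism `πZ` on the cohomology are roots of a polynomial with the property
`P`. -/
structure IsPairFor [CharZero F] (P : ℚ[X] → Prop) (q : ℕ) {I : Type} (f : I → ℤ[X])
    (πA : A ⟶ A) (πZ : Z ⟶ Z) : Prop where
  standard : IsStandard H
  abelian : IsAbelian H πA q 1 f
  eigen : EigenvaluesIn H P πZ

end

/-- `TateFor P q f`: the following holds for the Chow groups `C` with rational coefficients of all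
classes `𝒱` of varieties over fields `k` (finite, in the intended use), every Weil cohomology
theory `H` with coefficients in an algebraically closed field `F` of characteristic zero, all `A`,
`Z` as in `IsPairFor` and all `c`: the Tate conjecture holds for `A × Z` in codimension `c` if and
only if it holds for `Z` in all codimensions `c - i` with `0 ≤ i ≤ dim A`; the same for the Tate
conjecture together with semisimplicity. -/
def TateFor (P : ℚ[X] → Prop) (q : ℕ) {I : Type} (f : I → ℤ[X]) : Prop :=
  ∀ (k : Type) [Field k] (𝒱 : VarClass k) (C : TheoryData.{0, 0, 0} 𝒱 ℚ) [IsChow C]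
    (F : Type) [Field F] [IsAlgClosed F] [CharZero F] (H : WeilTheoryData.{0, 0, 0} C F)
    [IsWeil H] (A Z : 𝒱.Obj) (πA : A ⟶ A) (πZ : Z ⟶ Z),
      IsPairFor H P q f πA πZ → ∀ c : ℕ,
        (TateIn H (prodMap πA πZ) q c ↔ ∀ i ≤ A.dim, i ≤ c → TateIn H πZ q (c - i)) ∧
        (StrongTateIn H (prodMap πA πZ) q c ↔
          ∀ i ≤ A.dim, i ≤ c → StrongTateIn H πZ q (c - i))

/-- `HomNumFor P q f`: the following holds for the Chow groups `C` with rational coefficients of
all classes `𝒱` of varieties over fields `k` (finite, in the intended use), every Weil cohomology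
theory `H` with coefficients in an algebraically closed field `F` of characteristic zero, all `A`,
`Z` as in `IsPairFor` where the Frobenius endomorphism `πA × πZ` acts on the Chow groups of `A × Z`
in the usual way, and all `c`: homological and numerical equivalence coincide for cycles of
codimension `c` on `A × Z` if and only if they coincide for cycles of codimension `c - i` on `Z` for
all `0 ≤ i ≤ dim A`. -/
def HomNumFor (P : ℚ[X] → Prop) (q : ℕ) {I : Type} (f : I → ℤ[X]) : Prop :=
  ∀ (k : Type) [Field k] (𝒱 : VarClass k) (C : TheoryData.{0, 0, 0} 𝒱 ℚ) [IsChow C]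
    (F : Type) [Field F] [IsAlgClosed F] [CharZero F] (H : WeilTheoryData.{0, 0, 0} C F)
    [IsWeil H] (A Z : 𝒱.Obj) (πA : A ⟶ A) (πZ : Z ⟶ Z),
      IsPairFor H P q f πA πZ → IsFrobenius C (prodMap πA πZ) q → ∀ c : ℕ,
        (HomNumIn H (A.prod Z) c ↔ ∀ i ≤ A.dim, i ≤ c → HomNumIn H Z (c - i))

end Pool.Agent.Q70.SQ
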