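import Mathlib
import Pool.Agent.Y137.MV.Odd

/-!
# Quadratic forms on odd functions
-/

set_option autoImplicit false

namespace Pool.Agent.Q70.SQ

open Pool.Agent.Y137.MV

section kernel

variable {E E' G : Type*} [Fintype E] [Group G] [MulAction G E] [MulAction G E']

/-- The operator with the kernel `b`. -/
def kerOp (b : E → E' → ℚ) : (E → ℚ) →ₗ[ℚ] (E' → ℚ) where
  toFun n y := ∑ x, n x * b x y
  map_add' m n := by
    funext y
    simp only [Pi.add_apply, add_mul, Finset.sum_add_distrib]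
  map_smul' r n := by
    funext y
    simp only [Pi.smul_apply, smul_eq_mul, RingHom.id_apply, Finset.mul_sum, mul_assoc]

theorem kerOp_apply (b : E → E' → ℚ) (n : E → ℚ) (y : E') : kerOp b n y = ∑ x, n x * b x y := rfl

theorem kerOp_equiv (b : E → E' → ℚ) (hb : ∀ (g : G) x y, b (g • x) (g • y) = b x y) (g : G)
    (n : E → ℚ) (y : E') : kerOp b (fun x => n (g • x)) y = kerOp b n (g • y) := by
  rw [kerOp_apply, kerOp_apply]
  refine Fintype.sum_equiv (MulAction.toPerm g) _ _ fun x => ?_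
  rw [MulAction.toPerm_apply, hb]

variable [DecidableEq E] (inv : E → E) (hinv : ∀ x, inv (inv x) = x)

/-- The basic odd functions. -/
def dlt (x : E) : E → ℚ := fun y => (if y = x then 1 else 0) - (if y = inv x then 1 else 0)

include hinv in
theorem dlt_odd (x : E) : OddFun inv (dlt inv x) := by
  intro y
  have e1 : (inv y = x) ↔ (y = inv x) :=
    ⟨fun h => by rw [← h, hinv], fun h => by rw [h, hinv]⟩
  have e2 : (inv y = inv x) ↔ (y = x) :=
    ⟨fun h => by rw [← hinv y, h, hinv], fun h => by rw [h]⟩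
  simp only [dlt, e1, e2]
  ring

theorem kerOp_dlt (b : E → E' → ℚ) (hb : ∀ x y, b (inv x) y = -b x y) (x : E) (y : E') :
    kerOp b (dlt inv x) y = 2 * b x y := by
  rw [kerOp_apply]
  simp only [dlt, sub_mul, ite_mul, one_mul, zero_mul, Finset.sum_sub_distrib, Finset.sum_ite_eq',
    Finset.mem_univ, if_true, hb]
  ring

end kernel

/-- The odd functions form an absolutely irreducible representation. -/
def AbsOdd {E : Type*} (G : Type*) [Group G] [MulAction G E] (inv : E → E) : Prop :=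
  ∀ T : (E → ℚ) →ₗ[ℚ] (E → ℚ), (∀ (g : G) n x, T (fun y => n (g • y)) x = T n (g • x)) →
    (∀ n, OddFun inv (T n)) → ∃ c : ℚ, ∀ n, OddFun inv n → T n = c • n

theorem exists_dual {r : ℝ} (hr : r ≠ 0) : ∃ l : ℝ →ₗ[ℚ] ℚ, l r ≠ 0 := by
  by_contra h
  push Not at h
  exact hr ((Module.forall_dual_apply_eq_zero_iff ℚ r).1 h)

/-- Invariant forms on unrelated representations are zero. -/
theorem form_zero {E E' G : Type*} [Fintype E] [DecidableEq E] [Group G] [MulAction G E]
    [MulAction G E'] {inv : E → E} {inv' : E' → E'} (hinv : ∀ x, inv (inv x) = x)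
    (hun : UnrelOdd G inv inv') (B : E → E' → ℝ)
    (hB : ∀ (g : G) x y, B (g • x) (g • y) = B x y) (hB1 : ∀ x y, B (inv x) y = -B x y)
    (hB2 : ∀ x y, B x (inv' y) = -B x y) (x : E) (y : E') : B x y = 0 := by
  by_contra h0
  obtain ⟨l, hl⟩ := exists_dual h0
  let b : E → E' → ℚ := fun x y => l (B x y)
  have h1 := hun (kerOp b) (fun g n y => kerOp_equiv b (fun g x y => by simp only [b, hB]) g n y)
    (fun n y => by
      rw [kerOp_apply, kerOp_apply, ← Finset.sum_neg_distrib]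
      exact Finset.sum_congr rfl fun x _ => by simp only [b, hB2, map_neg, mul_neg])
    (dlt inv x) (dlt_odd inv hinv x)
  have h2 := congrFun h1 y
  rw [kerOp_dlt inv b (fun x y => by simp only [b, hB1, map_neg]), Pi.zero_apply] at h2
  exact hl ((mul_eq_zero.1 h2).resolve_left (by norm_num))

/-- Invariant forms on an absolutely irreducible representation are multiples of the standard
form. -/
theorem form_self {E G : Type*} [Fintype E] [DecidableEq E] [Group G] [MulAction G E]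
    {inv : E → E} (hinv : ∀ x, inv (inv x) = x)
    (habs : AbsOdd G inv) (B : E → E → ℝ)
    (hB : ∀ (g : G) x y, B (g • x) (g • y) = B x y) (hB1 : ∀ x y, B (inv x) y = -B x y)
    (hB2 : ∀ x y, B x (inv y) = -B x y) (x y : E) (h1 : y ≠ x) (h2 : y ≠ inv x) : B x y = 0 := by
  by_contra h0
  obtain ⟨l, hl⟩ := exists_dual h0
  let b : E → E → ℚ := fun x y => l (B x y)
  obtain ⟨c, hc⟩ := habs (kerOp b)
    (fun g n y => kerOp_equiv b (fun g x y => by simp only [b, hB]) g n y)
    (fun n y => by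
      rw [kerOp_apply, kerOp_apply, ← Finset.sum_neg_distrib]
      exact Finset.sum_congr rfl fun x _ => by simp only [b, hB2, map_neg, mul_neg])
  have h3 := congrFun (hc (dlt inv x) (dlt_odd inv hinv x)) y
  rw [kerOp_dlt inv b (fun x y => by simp only [b, hB1, map_neg]), Pi.smul_apply] at h3
  simp only [dlt, if_neg h1, if_neg h2, sub_zero, smul_zero] at h3
  exact hl ((mul_eq_zero.1 h3).resolve_left (by norm_num))

section quad

variable {X : Type*} [Fintype X] [DecidableEq X] {bar : X → X} (hbar : ∀ x, bar (bar x) = x)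
  (hne : ∀ x, bar x ≠ x) {B : X → X → ℝ} (hB1 : ∀ x y, B x (bar y) = -B x y)
  (hB2 : ∀ x y, y ≠ x → y ≠ bar x → B x y = 0) (hc : ∀ x, B (bar x) (bar x) = B x x)

include hbar hne hB1 hB2 hc in
/-- The value of the quadratic form. -/
theorem quad_eq (c : X → ℝ) : ∑ x, ∑ y, c x * c y * B x y =
    1 / 2 * ∑ x, (c x - c (bar x)) ^ 2 * B x x := by
  have h1 : ∀ x, ∑ y, c x * c y * B x y = c x * (c x - c (bar x)) * B x x := by
    intro x
    rw [← Finset.add_sum_erase _ _ (Finset.mem_univ x),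
      ← Finset.add_sum_erase _ _ (Finset.mem_erase.2 ⟨hne x, Finset.mem_univ (bar x)⟩),
      Finset.sum_eq_zero, hB1]
    · ring
    · intro y hy
      rw [Finset.mem_erase, Finset.mem_erase] at hy
      rw [hB2 x y hy.2.1 hy.1, mul_zero]
  rw [Finset.sum_congr rfl fun x _ => h1 x]
  let e : X ≃ X := ⟨bar, bar, hbar, hbar⟩
  have h2 : ∑ x, c x * (c x - c (bar x)) * B x x =
      ∑ x, c (bar x) * (c (bar x) - c x) * B x x := by
    refine Fintype.sum_equiv e _ _ fun x => ?_
    change _ = c (bar (bar x)) * (c (bar (bar x)) - c (bar x)) * B (bar x) (bar x)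
    rw [hbar, hc]
  have h3 : ∑ x, (c x - c (bar x)) ^ 2 * B x x =
      ∑ x, c x * (c x - c (bar x)) * B x x + ∑ x, c (bar x) * (c (bar x) - c x) * B x x := by
    rw [← Finset.sum_add_distrib]
    exact Finset.sum_congr rfl fun x _ => by ring
  rw [h3, ← h2]
  ring

include hbar hne hc in
theorem quad_lower (hpos : ∀ x, 0 ≤ B x x) (n : X → ℝ) (hn : ∀ x, n (bar x) = -n x) (x0 : X) :
    n x0 ^ 2 * B x0 x0 ≤ 1 / 2 * ∑ x, n x ^ 2 * B x x := by
  have h0 : ∀ x, 0 ≤ n x ^ 2 * B x x := fun x => mul_nonneg (sq_nonneg _) (hpos x)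
  rw [← Finset.add_sum_erase _ _ (Finset.mem_univ x0),
    ← Finset.add_sum_erase _ _ (Finset.mem_erase.2 ⟨hne x0, Finset.mem_univ (bar x0)⟩), hc, hn]
  have h1 : 0 ≤ ∑ x ∈ (Finset.univ.erase x0).erase (bar x0), n x ^ 2 * B x x :=
    Finset.sum_nonneg fun x _ => h0 x
  nlinarith [h1]

include hbar hne hc in
theorem quad_lower2 (hpos : ∀ x, 0 ≤ B x x) (n : X → ℝ) (hn : ∀ x, n (bar x) = -n x) (x0 x1 : X)
    (h01 : x1 ≠ x0) (h01' : x1 ≠ bar x0) :
    n x0 ^ 2 * B x0 x0 + n x1 ^ 2 * B x1 x1 ≤ 1 / 2 * ∑ x, n x ^ 2 * B x x := by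
  have h0 : ∀ x, 0 ≤ n x ^ 2 * B x x := fun x => mul_nonneg (sq_nonneg _) (hpos x)
  have h2 : bar x1 ≠ bar x0 := fun h => h01 (by rw [← hbar x1, h, hbar])
  have h3 : bar x1 ≠ x0 := fun h => h01' (by rw [← h, hbar])
  rw [← Finset.add_sum_erase _ _ (Finset.mem_univ x0),
    ← Finset.add_sum_erase _ _ (Finset.mem_erase.2 ⟨hne x0, Finset.mem_univ (bar x0)⟩),
    ← Finset.add_sum_erase _ _ (Finset.mem_erase.2 ⟨h01', Finset.mem_erase.2
      ⟨h01, Finset.mem_univ x1⟩⟩),
    ← Finset.add_sum_erase _ _ (Finset.mem_erase.2 ⟨hne x1, Finset.mem_erase.2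
      ⟨h2, Finset.mem_erase.2 ⟨h3, Finset.mem_univ (bar x1)⟩⟩⟩), hc, hn, hc, hn]
  have h1 : 0 ≤ ∑ x ∈ (((Finset.univ.erase x0).erase (bar x0)).erase x1).erase (bar x1),
      n x ^ 2 * B x x := Finset.sum_nonneg fun x _ => h0 x
  nlinarith [h1]

include hbar hne in
/-- Parity: if the sum of the numbers `c x` is even and `c x0`, `c (bar x0)` differ by an odd number
then `c x1`, `c (bar x1)` are different for some other `x1`. -/
theorem exists_other {c : X → ℕ} (hev : Even (∑ x, c x)) {x0 : X}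
    (hodd : Odd (c x0 + c (bar x0))) : ∃ x1, x1 ≠ x0 ∧ x1 ≠ bar x0 ∧ c x1 ≠ c (bar x1) := by
  by_contra hcon
  push Not at hcon
  rw [← Finset.add_sum_erase _ _ (Finset.mem_univ x0),
    ← Finset.add_sum_erase _ _ (Finset.mem_erase.2 ⟨hne x0, Finset.mem_univ (bar x0)⟩),
    ← add_assoc] at hev
  have h1 : Even (∑ x ∈ (Finset.univ.erase x0).erase (bar x0), c x) := by
    rw [← ZMod.natCast_eq_zero_iff_even]
    push_cast
    refine Finset.sum_involution (fun x _ => bar x) (fun x hx => ?_) (fun x _ _ => hne x)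
      (fun x hx => ?_) (fun x _ => hbar x)
    · rw [Finset.mem_erase, Finset.mem_erase] at hx
      rw [← hcon x hx.2.1 hx.1]
      exact CharTwo.add_self_eq_zero _
    · rw [Finset.mem_erase, Finset.mem_erase] at hx ⊢
      exact ⟨fun h => hx.2.1 (by rw [← hbar x, h, hbar]), fun h => hx.1 (by rw [← h, hbar]),
        Finset.mem_univ _⟩
  have h2 := (Nat.even_add.1 hev).2 h1
  exact (Nat.not_even_iff_odd.2 hodd) h2

end quad

end Pool.Agent.Q70.SQ
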