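import Mathlib
import Pool.Agent.Q70.SQ.Defs
import Pool.Agent.Q70.SQ.Quad
import Pool.Agent.Y137.MV.Width
import Pool.Agent.Y1.TS.Split

/-!
# Second moments of the slopes
-/

set_option autoImplicit false
set_option linter.unusedSectionVars false
set_option linter.unusedVariables false

namespace Pool.Agent.Q70.SQ

open NumberField Module TensorProduct IntermediateField
open Pool.Agent.H204R3.CM Pool.Agent.H204R3.SP Pool.Agent.H204R3.GP Pool.Agent.Y137.MV
  Pool.Agent.Y137.SL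

noncomputable section

theorem abs_transfer {L : Type*} [Field L] [NumberField L] [IsGalois ℚ L] (j : L →+* ℂ)
    {F : Type*} [Field F] [NumberField F] [IsCMField F]
    (h : ∀ ψ : F →+* ℂ, ∃ φ : F →+* L, j.comp φ = ψ) (habs : OddAbsolutelyIrreducible F) :
    AbsOdd (E := F →+* L) (L ≃ₐ[ℚ] L) cbar := by
  intro T hT1 hT2
  let J : (F →+* L) ≃ (F →+* ℂ) := embEquiv j h
  let A : ((F →+* ℂ) → ℚ) →ₗ[ℚ] ((F →+* L) → ℚ) :=
    { toFun := fun n φ => n (J φ)
      map_add' := fun _ _ => rfl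
      map_smul' := fun _ _ => rfl }
  let B : ((F →+* L) → ℚ) →ₗ[ℚ] ((F →+* ℂ) → ℚ) :=
    { toFun := fun n φ => n (J.symm φ)
      map_add' := fun _ _ => rfl
      map_smul' := fun _ _ => rfl }
  have hJs : ∀ φ : F →+* L, J.symm (j.comp φ) = φ := fun φ => J.symm_apply_apply φ
  obtain ⟨c, hc⟩ := habs.2 (B.comp (T.comp A)) (by
    intro τ m ψ
    obtain ⟨φ, rfl⟩ := h ψ
    obtain ⟨σ, hσ⟩ := H194R3.CM.exists_restrict j (τ : ℂ →+* ℂ)
    change T (A (fun φ => m ((τ : ℂ →+* ℂ).comp φ))) (J.symm (j.comp φ)) =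
      T (A m) (J.symm ((τ : ℂ →+* ℂ).comp (j.comp φ)))
    rw [hJs, ← H194R3.CM.comp_smul_of_restrict j _ σ hσ, hJs, ← hT1]
    have e2 : (A (fun φ => m ((τ : ℂ →+* ℂ).comp φ))) = fun y => A m (σ • y) := by
      funext ψ
      change m ((τ : ℂ →+* ℂ).comp (j.comp ψ)) = m (j.comp (σ • ψ))
      rw [H194R3.CM.comp_smul_of_restrict j _ σ hσ]
    rw [e2]) (by
    intro m ψ
    obtain ⟨φ, rfl⟩ := h ψ
    change T (A m) (J.symm (ComplexEmbedding.conjugate (j.comp φ))) =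
      -T (A m) (J.symm (j.comp φ))
    rw [← comp_cbar, hJs, hJs]
    exact hT2 _ φ)
  refine ⟨c, fun n hn => ?_⟩
  have h1 := hc (fun ψ => n (J.symm ψ)) (by
    intro ψ
    obtain ⟨φ, rfl⟩ := h ψ
    change n (J.symm (ComplexEmbedding.conjugate (j.comp φ))) = -n (J.symm (j.comp φ))
    rw [← comp_cbar, hJs, hJs]
    exact hn φ)
  funext φ
  have h2 := congrFun h1 (j.comp φ)
  change T (A (fun ψ => n (J.symm ψ))) (J.symm (j.comp φ)) = c • n (J.symm (j.comp φ)) at h2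
  rw [hJs] at h2
  have h3 : A (fun ψ => n (J.symm ψ)) = n := by
    funext φ
    change n (J.symm (J φ)) = n φ
    rw [Equiv.symm_apply_apply]
  rw [h3] at h2
  exact h2

/-- The sum over the Galois group and the sum over the conjugates. -/
theorem sum_gal {p : ℕ} [Fact p.Prime] {L : Type*} [Field L] [NumberField L] [IsGalois ℚ L]
    (jp : L →+* PadicAlgCl p) (z : L) (g : PadicAlgCl p → ℝ) :
    (∑ σ : L ≃ₐ[ℚ] L, g (jp (σ z))) * (minpoly ℚ z).natDegree =
      Fintype.card (L ≃ₐ[ℚ] L) * (((minpoly ℚ z).aroots (PadicAlgCl p)).map g).sum := by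
  classical
  have hfin : Finite (MulAction.orbit (L ≃ₐ[ℚ] L) z) := by
    have h1 : (MulAction.orbit (L ≃ₐ[ℚ] L) z).Finite := Set.finite_range _
    exact h1.to_subtype
  have _ : Fintype (MulAction.orbit (L ≃ₐ[ℚ] L) z) := Fintype.ofFinite _
  obtain ⟨s, hs0, hs1, hs2⟩ := orbit_sum (G := L ≃ₐ[ℚ] L) z (fun w => g (jp w))
  have hint : IsIntegral ℚ z := Algebra.IsIntegral.isIntegral z
  let jg : L →ₐ[ℚ] PadicAlgCl p := RingHom.equivRatAlgHom L (PadicAlgCl p) jp
  have hnod : ((minpoly ℚ z).aroots (PadicAlgCl p)).Nodup :=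
    Polynomial.nodup_aroots_iff_of_splits (minpoly.ne_zero hint) (IsAlgClosed.splits _) |>.2
      (minpoly.irreducible hint).separable
  let T : Finset (PadicAlgCl p) := Finset.univ.image
    (fun w : MulAction.orbit (L ≃ₐ[ℚ] L) z => jp w.1)
  have hT : (minpoly ℚ z).aroots (PadicAlgCl p) = T.val := by
    rw [Multiset.Nodup.ext hnod T.nodup]
    intro x
    rw [Finset.mem_val, Finset.mem_image, Polynomial.mem_aroots]
    constructor
    · rintro ⟨-, hx⟩
      have hspl : ((minpoly ℚ z).map (algebraMap ℚ L)).Splits := Normal.splits inferInstance z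
      have h1 := hspl.roots_map jp
      rw [Polynomial.map_map] at h1
      have h2 : jp.comp (algebraMap ℚ L) = algebraMap ℚ (PadicAlgCl p) := Subsingleton.elim _ _
      rw [h2] at h1
      have h3 : x ∈ ((minpoly ℚ z).map (algebraMap ℚ (PadicAlgCl p))).roots := by
        rw [Polynomial.mem_roots (Polynomial.map_ne_zero (minpoly.ne_zero hint)),
          Polynomial.IsRoot.def, Polynomial.eval_map_algebraMap]
        exact hx
      rw [h1, Multiset.mem_map] at h3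
      obtain ⟨w, hw, rfl⟩ := h3
      rw [Polynomial.mem_roots (Polynomial.map_ne_zero (minpoly.ne_zero hint)),
        Polynomial.IsRoot.def, Polynomial.eval_map_algebraMap] at hw
      obtain ⟨σ, hσ⟩ := minpoly.exists_algEquiv_of_root' hint.isAlgebraic hw
      exact ⟨⟨w, σ, hσ⟩, Finset.mem_univ _, rfl⟩
    · rintro ⟨⟨_, σ, rfl⟩, -, rfl⟩
      refine ⟨minpoly.ne_zero hint, ?_⟩
      let jσ : L →ₐ[ℚ] PadicAlgCl p := RingHom.equivRatAlgHom L (PadicAlgCl p)
        (jp.comp (σ : L →+* L))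
      have h3 := Polynomial.aeval_algHom_apply jσ z (minpoly ℚ z)
      rw [minpoly.aeval, map_zero] at h3
      exact h3
  have hsum : (((minpoly ℚ z).aroots (PadicAlgCl p)).map g).sum =
      ∑ w : MulAction.orbit (L ≃ₐ[ℚ] L) z, g (jp w.1) := by
    rw [hT]
    change ∑ x ∈ T, g x = _
    rw [Finset.sum_image]
    intro w _ w' _ hww
    exact Subtype.ext (jp.injective hww)
  have hdeg : (minpoly ℚ z).natDegree = Fintype.card (MulAction.orbit (L ≃ₐ[ℚ] L) z) := by
    have h1 : ((minpoly ℚ z).aroots (PadicAlgCl p)).card = (minpoly ℚ z).natDegree :=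
      IsAlgClosed.card_aroots_eq_natDegree
    rw [← h1, hT]
    change T.card = _
    rw [Finset.card_image_of_injective _ (fun w w' hww => Subtype.ext (jp.injective hww)),
      Finset.card_univ]
  have hs2' : ∑ σ : L ≃ₐ[ℚ] L, g (jp (σ z)) =
      s * ∑ w : MulAction.orbit (L ≃ₐ[ℚ] L) z, g (jp w.1) := hs2
  rw [hs2', hsum, hdeg, hs1]
  push_cast
  ring

/-- The mean square is a mean over the Galois group. -/
theorem meanSquare_gal {p : ℕ} [Fact p.Prime] {L : Type*} [Field L] [NumberField L] [IsGalois ℚ L]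
    (jp : L →+* PadicAlgCl p) (z : L) (r : ℝ) :
    ∑ σ : L ≃ₐ[ℚ] L, (Real.log ‖jp (σ z)‖ + r) ^ 2 =
      Fintype.card (L ≃ₐ[ℚ] L) * meanSquare p (minpoly ℚ z) r := by
  have h1 := sum_gal jp z (fun x => (Real.log ‖x‖ + r) ^ 2)
  have h2 : ((minpoly ℚ z).natDegree : ℝ) ≠ 0 := by
    exact_mod_cast (minpoly.natDegree_pos (Algebra.IsIntegral.isIntegral z)).ne'
  rw [meanSquare, mul_div_assoc', eq_div_iff h2]
  exact h1

section moments

variable {p : ℕ} [Fact p.Prime] {a : ℕ} {ι : Type*} [Fintype ι] {F : ι → Type*}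
  [∀ i, Field (F i)] [∀ i, NumberField (F i)] [∀ i, IsCMField (F i)] {π : ∀ i, F i}
  {L : Type*} [Field L] [NumberField L] [IsGalois ℚ L] (j : L →+* ℂ)
  (h : ∀ i, ∀ ψ : F i →+* ℂ, ∃ φ : F i →+* L, j.comp φ = ψ) (jp : L →+* PadicAlgCl p)
  (hw : ∀ i, π i * IsCMField.complexConj (F i) (π i) = (p : F i) ^ a)

/-- Twice the deviation of the slope. -/
def uu (p a : ℕ) [Fact p.Prime] (π : ∀ i, F i) (jp : L →+* PadicAlgCl p)
    (x : Σ i, (F i →+* L)) : ℝ :=
  2 * Real.log ‖jp (val π x)‖ - Real.log ‖(p : PadicAlgCl p) ^ a‖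

/-- The second moments. -/
def BB (p a : ℕ) [Fact p.Prime] (π : ∀ i, F i) (jp : L →+* PadicAlgCl p)
    (x y : Σ i, (F i →+* L)) : ℝ :=
  ∑ σ : L ≃ₐ[ℚ] L, uu p a π jp (σ • x) * uu p a π jp (σ • y)

theorem log_Q (p a : ℕ) [Fact p.Prime] :
    Real.log ‖(p : PadicAlgCl p) ^ a‖ = -((a : ℝ) * Real.log p) := by
  rw [norm_pow, Real.log_pow]
  have h1 : ‖(p : PadicAlgCl p)‖ = (p : ℝ)⁻¹ := by
    have h2 := PadicAlgCl.norm_extends p (p : ℚ_[p])
    rw [Padic.norm_p] at h2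
    rw [← h2]
    congr 1
  rw [h1, Real.log_inv]
  ring

include hw in
theorem norm_val_ne (x : Σ i, (F i →+* L)) : ‖jp (val π x)‖ ≠ 0 := by
  intro h1
  rw [norm_eq_zero] at h1
  have h2 := val_bar (L := L) hw x
  have h3 : val π x = 0 := jp.injective (by rw [h1, map_zero])
  rw [h3, zero_mul] at h2
  exact pow_ne_zero a (Nat.cast_ne_zero.2 (Fact.out : p.Prime).ne_zero) h2.symm

include hw in
theorem uu_bar (x : Σ i, (F i →+* L)) : uu p a π jp (bar x) = -uu p a π jp x := by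
  have h1 := congrArg (fun z => Real.log ‖jp z‖) (val_bar (L := L) hw x)
  simp only [map_mul, norm_mul, map_pow, map_natCast] at h1
  rw [Real.log_mul (norm_val_ne jp hw _) (norm_val_ne jp hw _)] at h1
  simp only [uu]
  linarith

theorem BB_inv (g : L ≃ₐ[ℚ] L) (x y : Σ i, (F i →+* L)) :
    BB p a π jp (g • x) (g • y) = BB p a π jp x y := by
  rw [BB, BB]
  refine Fintype.sum_equiv (Equiv.mulRight g) _ _ fun σ => ?_
  rw [Equiv.coe_mulRight, mul_smul, mul_smul]

include hw in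
theorem BB_bar_left (x y : Σ i, (F i →+* L)) : BB p a π jp (bar x) y = -BB p a π jp x y := by
  rw [BB, BB, ← Finset.sum_neg_distrib]
  refine Finset.sum_congr rfl fun σ _ => ?_
  have h1 : σ • bar x = bar (σ • x) := rfl
  rw [h1, uu_bar jp hw, neg_mul]

theorem BB_symm (x y : Σ i, (F i →+* L)) : BB p a π jp x y = BB p a π jp y x := by
  rw [BB, BB]
  exact Finset.sum_congr rfl fun σ _ => mul_comm _ _

include hw in
theorem BB_bar_right (x y : Σ i, (F i →+* L)) : BB p a π jp x (bar y) = -BB p a π jp x y := by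
  rw [BB_symm, BB_bar_left jp hw, BB_symm]

include hw in
theorem BB_bar_bar (x : Σ i, (F i →+* L)) : BB p a π jp (bar x) (bar x) = BB p a π jp x x := by
  rw [BB_bar_left jp hw, BB_bar_right jp hw, neg_neg]

theorem BB_nonneg (x : Σ i, (F i →+* L)) : 0 ≤ BB p a π jp x x :=
  Finset.sum_nonneg fun _ _ => mul_self_nonneg _

include j h hw in
/-- **The slopes of different pairs of conjugate embeddings are uncorrelated.** -/
theorem BB_zero (habs : ∀ i, OddAbsolutelyIrreducible (F i))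
    (hun : ∀ i i', i ≠ i' → Unrelated (F i) (F i')) (x y : Σ i, (F i →+* L)) (h1 : y ≠ x)
    (h2 : y ≠ bar x) : BB p a π jp x y = 0 := by
  classical
  obtain ⟨i, φ⟩ := x
  obtain ⟨i', φ'⟩ := y
  by_cases hii : i = i'
  · subst hii
    exact form_self (E := F i →+* L) (G := L ≃ₐ[ℚ] L) (inv := cbar) cbar_cbar
      (abs_transfer j (h i) (habs i)) (fun φ φ' => BB p a π jp ⟨i, φ⟩ ⟨i, φ'⟩)
      (fun g φ φ' => BB_inv jp g ⟨i, φ⟩ ⟨i, φ'⟩)
      (fun φ φ' => BB_bar_left jp hw ⟨i, φ⟩ ⟨i, φ'⟩)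
      (fun φ φ' => BB_bar_right jp hw ⟨i, φ⟩ ⟨i, φ'⟩) φ φ'
      (fun h3 => h1 (by rw [h3])) (fun h3 => h2 (by rw [h3]; rfl))
  · exact form_zero (E := F i →+* L) (E' := F i' →+* L) (G := L ≃ₐ[ℚ] L) (inv := cbar)
      (inv' := cbar) cbar_cbar (unrel_transfer j (h i) (h i') (hun i i' hii))
      (fun φ φ' => BB p a π jp ⟨i, φ⟩ ⟨i', φ'⟩)
      (fun g φ φ' => BB_inv jp g ⟨i, φ⟩ ⟨i', φ'⟩)
      (fun φ φ' => BB_bar_left jp hw ⟨i, φ⟩ ⟨i', φ'⟩)
      (fun φ φ' => BB_bar_right jp hw ⟨i, φ⟩ ⟨i', φ'⟩) φ φ'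

/-- The diagonal second moments. -/
theorem BB_self (x : Σ i, (F i →+* L)) :
    BB p a π jp x x = 4 * (Fintype.card (L ≃ₐ[ℚ] L) * weilDeviation p a (π x.1)) := by
  have hmin : minpoly ℚ (val π x) = minpoly ℚ (π x.1) :=
    minpoly.algHom_eq (RingHom.equivRatAlgHom (F x.1) L x.2) x.2.injective (π x.1)
  have h1 := meanSquare_gal jp (val π x) ((a : ℝ) * Real.log p / 2)
  rw [hmin] at h1
  rw [weilDeviation, ← h1, Finset.mul_sum, BB]
  refine Finset.sum_congr rfl fun σ _ => ?_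
  rw [uu, log_Q]
  have h2 : val π (σ • x) = σ (val π x) := rfl
  rw [h2]
  ring

end moments

end

end Pool.Agent.Q70.SQ
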