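import Mathlib
import Pool.Agent.Q70.SQ.Gal

/-!
# Eigenvalues whose slopes have small mean square deviation
-/

set_option autoImplicit false
set_option linter.unusedSectionVars false
set_option linter.unusedVariables false

namespace Pool.Agent.Q70.SQ

open NumberField Module TensorProduct IntermediateField
open Pool.Agent.H204R3.CM Pool.Agent.H204R3.SP Pool.Agent.H204R3.GP Pool.Agent.Y137.MV
  Pool.Agent.Y137.SL

noncomputable section

variable {p : ℕ} [Fact p.Prime] {a : ℕ} {ι : Type*} [Fintype ι] {F : ι → Type*}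
  [∀ i, Field (F i)] [∀ i, NumberField (F i)] [∀ i, IsCMField (F i)] {π : ∀ i, F i}
  {L : Type*} [Field L] [NumberField L] [IsGalois ℚ L] (j : L →+* ℂ)
  (h : ∀ i, ∀ ψ : F i →+* ℂ, ∃ φ : F i →+* L, j.comp φ = ψ) (jp : L →+* PadicAlgCl p)
  (hw : ∀ i, π i * IsCMField.complexConj (F i) (π i) = (p : F i) ^ a)
  (habs : ∀ i, OddAbsolutelyIrreducible (F i))
  (hun : ∀ i i', i ≠ i' → Unrelated (F i) (F i'))

include hw in
/-- The relation between the deviation of `β` and those of the `π i`. -/
theorem dev_relation {K N : ℕ} {I : Fin K → (Σ i, (F i →+* L))} (hN : 0 < N) {β : L}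
    (hβN : β ^ N = ∏ l, (val π (I l)) ^ N) :
    Real.log ‖j β‖ = (K : ℝ) * ((a : ℝ) * Real.log p) / 2 ∧ ∀ σ : L ≃ₐ[ℚ] L,
      ∑ l, uu p a π jp (σ • I l) = 2 * (Real.log ‖jp (σ β)‖ + Real.log ‖j β‖) := by
  have hp0 : (0 : ℝ) < p := Nat.cast_pos.2 (Fact.out : p.Prime).pos
  have hN0 : (N : ℝ) ≠ 0 := Nat.cast_ne_zero.2 hN.ne'
  have hlogj : Real.log ‖j β‖ = (K : ℝ) * ((a : ℝ) * Real.log p) / 2 := by
    have h1 := congrArg (fun x => Real.log ‖j x‖) hβN
    simp only [map_prod, map_pow, norm_prod, norm_pow (_ : ℂ), Real.log_pow] at h1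
    have hne : ∀ x : Σ i, (F i →+* L), ‖j (val π x)‖ ≠ 0 := by
      intro x h2
      have h3 := norm_val j hw x
      rw [h2] at h3
      have h4 : (0 : ℝ) < (p : ℝ) ^ a := pow_pos hp0 a
      norm_num at h3
      linarith
    have hlog : ∀ x : Σ i, (F i →+* L), Real.log ‖j (val π x)‖ = (a : ℝ) * Real.log p / 2 := by
      intro x
      have h3 := congrArg Real.log (norm_val j hw x)
      rw [Real.log_pow, Real.log_pow] at h3
      push_cast at h3
      linarith
    have h2 : Real.log (∏ l, ‖j (val π (I l))‖ ^ N) =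
        ∑ l : Fin K, (N : ℝ) * ((a : ℝ) * Real.log p / 2) := by
      rw [Real.log_prod]
      · exact Finset.sum_congr rfl fun l _ => by rw [Real.log_pow, hlog]
      · intro l _
        exact pow_ne_zero _ (hne _)
    rw [h2, ← Finset.mul_sum] at h1
    have h3 := mul_left_cancel₀ hN0 h1
    rw [h3, Finset.sum_const, Finset.card_univ, Fintype.card_fin, nsmul_eq_mul]
    ring
  refine ⟨hlogj, fun σ => ?_⟩
  have h1 := congrArg (fun x => Real.log ‖jp (σ x)‖) hβN
  simp only [map_prod, map_pow, norm_prod, norm_pow (_ : PadicAlgCl p), Real.log_pow] at h1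
  have h2 : Real.log (∏ l, ‖jp (σ (val π (I l)))‖ ^ N) =
      ∑ l, (N : ℝ) * Real.log ‖jp (σ (val π (I l)))‖ := by
    rw [Real.log_prod]
    · exact Finset.sum_congr rfl fun l _ => Real.log_pow _ _
    · intro l _
      exact pow_ne_zero _ (norm_val_ne jp hw (σ • I l))
  rw [h2, ← Finset.mul_sum] at h1
  have h3 := mul_left_cancel₀ hN0 h1
  simp only [uu]
  rw [Finset.sum_sub_distrib, ← Finset.mul_sum, Finset.sum_const, Finset.card_univ,
    Fintype.card_fin, nsmul_eq_mul, log_Q, hlogj, h3]
  have h4 : ∑ l, Real.log ‖jp (val π (σ • I l))‖ = ∑ l, Real.log ‖jp (σ (val π (I l)))‖ := rfl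
  rw [h4]
  ring

include j h hw habs hun in
/-- The sum of the squares. -/
theorem sum_sq [DecidableEq (Σ i, (F i →+* L))] (c : (Σ i, (F i →+* L)) → ℝ) :
    ∑ σ : L ≃ₐ[ℚ] L, (∑ x, c x * uu p a π jp (σ • x)) ^ 2 =
      1 / 2 * ∑ x, (c x - c (bar x)) ^ 2 * BB p a π jp x x := by
  rw [← quad_eq (bar := bar) (B := BB p a π jp) bar_bar bar_ne (BB_bar_right jp hw)
    (BB_zero j h jp hw habs hun) (BB_bar_bar jp hw) c]
  have h1 : ∀ σ : L ≃ₐ[ℚ] L, (∑ x, c x * uu p a π jp (σ • x)) ^ 2 =
      ∑ x, ∑ y, c x * c y * (uu p a π jp (σ • x) * uu p a π jp (σ • y)) := by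
    intro σ
    rw [sq, Finset.sum_mul_sum]
    exact Finset.sum_congr rfl fun x _ => Finset.sum_congr rfl fun y _ => by ring
  rw [Finset.sum_congr rfl fun σ _ => h1 σ, Finset.sum_comm]
  refine Finset.sum_congr rfl fun x _ => ?_
  rw [Finset.sum_comm]
  refine Finset.sum_congr rfl fun y _ => ?_
  rw [← Finset.mul_sum]
  rfl

include j h jp hw habs hun in
/-- **Eigenvalues with small mean square deviation force balanced relations.** -/
theorem forces_of_deviation (ha : 0 < a) (β : L) (i : ι)
    (hβ : SmallDeviation p a π (j β) i) : Forces π β i := by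
  classical
  intro K N I hN hβN φ
  by_contra hcon
  let X := Σ i, (F i →+* L)
  let x0 : X := ⟨i, φ⟩
  obtain ⟨hlogj, hrel⟩ := dev_relation j jp hw hN hβN
  let c : X → ℕ := fun y => (Finset.univ.filter (fun l => I l = y)).card
  let n : X → ℝ := fun y => (c y : ℝ) - (c (bar y) : ℝ)
  have hn : ∀ x, n (bar x) = -n x := by
    intro x
    simp only [n, bar_bar]
    ring
  have hnint : ∀ x, n x ≠ 0 → 1 ≤ n x ^ 2 := by
    intro x hx
    have h1 : ((c x : ℤ) - (c (bar x) : ℤ)) ≠ 0 := by
      intro h2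
      apply hx
      have h3 : (((c x : ℤ) - (c (bar x) : ℤ) : ℤ) : ℝ) = 0 := by rw [h2, Int.cast_zero]
      push_cast at h3
      exact h3
    have h2 : 1 ≤ ((c x : ℤ) - (c (bar x) : ℤ)) ^ 2 := by
      have h3 := Int.one_le_abs h1
      have h4 : |(c x : ℤ) - (c (bar x) : ℤ)| ^ 2 = ((c x : ℤ) - (c (bar x) : ℤ)) ^ 2 := sq_abs _
      nlinarith
    have h3 : ((1 : ℤ) : ℝ) ≤ ((((c x : ℤ) - (c (bar x) : ℤ)) ^ 2 : ℤ) : ℝ) := by exact_mod_cast h2
    push_cast at h3
    exact h3
  have hx0 : n x0 ≠ 0 := by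
    intro h1
    apply hcon
    have h2 : (c x0 : ℝ) = (c (bar x0) : ℝ) := sub_eq_zero.1 h1
    exact_mod_cast h2
  have hcount : ∀ E : X → ℝ, ∑ l, E (I l) = ∑ y, (c y : ℝ) * E y := by
    intro E
    have h2 : ∀ y, (c y : ℝ) * E y = ∑ l, if I l = y then E y else 0 := by
      intro y
      rw [← Finset.sum_filter, Finset.sum_const, nsmul_eq_mul]
    rw [Finset.sum_congr rfl (fun y _ => h2 y), Finset.sum_comm]
    refine Finset.sum_congr rfl fun l _ => ?_
    rw [Finset.sum_ite_eq, if_pos (Finset.mem_univ _)]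
  have hcard : ∑ y, c y = K := by
    have h1 := hcount (fun _ => 1)
    simp only [Finset.sum_const, Finset.card_univ, Fintype.card_fin, nsmul_eq_mul, mul_one] at h1
    exact_mod_cast h1.symm
  -- the sum of the squares
  have hmin : minpoly ℚ (j β) = minpoly ℚ β :=
    minpoly.algHom_eq (RingHom.equivRatAlgHom L ℂ j) j.injective β
  set G : ℝ := (Fintype.card (L ≃ₐ[ℚ] L) : ℝ) with hG
  have hG0 : 0 < G := Nat.cast_pos.2 Fintype.card_pos
  have hS : 1 / 2 * ∑ x, n x ^ 2 * BB p a π jp x x = 4 * (G * deviation p (j β)) := by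
    have h1 := sum_sq j h jp hw habs hun (fun x => (c x : ℝ))
    rw [← h1, deviation, hmin, ← meanSquare_gal jp β, Finset.mul_sum]
    refine Finset.sum_congr rfl fun σ _ => ?_
    rw [← hcount (fun y => uu p a π jp (σ • y)), hrel σ]
    ring
  have hpos := BB_nonneg (p := p) (a := a) (π := π) jp
  rcases hβ with h1 | ⟨⟨w, hw2⟩, h1⟩
  · have h2 := quad_lower (bar := bar) (B := BB p a π jp) bar_bar bar_ne
      (BB_bar_bar jp hw) hpos n hn x0
    rw [hS, BB_self] at h2
    have h3 : G * deviation p (j β) < G * weilDeviation p a (π i) :=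
      mul_lt_mul_of_pos_left h1 hG0
    have h4 := hnint x0 hx0
    have h5 : 0 ≤ BB p a π jp x0 x0 := hpos x0
    rw [BB_self] at h5
    have h6 : (1 : ℝ) * (4 * (G * weilDeviation p a (π x0.1))) ≤
        n x0 ^ 2 * (4 * (G * weilDeviation p a (π x0.1))) := mul_le_mul_of_nonneg_right h4 h5
    change G * deviation p (j β) < G * weilDeviation p a (π x0.1) at h3
    linarith
  · -- the number of factors is even
    have hlogp : 0 < (a : ℝ) * Real.log p :=
      mul_pos (Nat.cast_pos.2 ha) (Real.log_pos (by exact_mod_cast (Fact.out : p.Prime).one_lt))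
    have hK : K = 2 * w := by
      rw [hw2, Real.log_pow, Real.log_pow] at hlogj
      have h3 : (w : ℝ) = K / 2 := by
        have h4 : ((w : ℝ) - K / 2) * ((a : ℝ) * Real.log p) = 0 := by linarith
        have h5 := (mul_eq_zero.1 h4).resolve_right hlogp.ne'
        linarith
      have h4 : (K : ℝ) = 2 * w := by linarith
      exact_mod_cast h4
    have hsum : ∃ x1 : X, BB p a π jp x0 x0 + BB p a π jp x1 x1 ≤
        1 / 2 * ∑ x, n x ^ 2 * BB p a π jp x x := by
      by_cases hodd : Odd (c x0 + c (bar x0))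
      · obtain ⟨x1, h3, h4, h5⟩ := exists_other (bar := bar) bar_bar bar_ne (c := c)
          (by rw [hcard, hK]; exact even_two_mul w) hodd
        refine ⟨x1, ?_⟩
        have h6 := quad_lower2 (bar := bar) (B := BB p a π jp) bar_bar bar_ne
          (BB_bar_bar jp hw) hpos n hn x0 x1 h3 h4
        have h7 := hnint x0 hx0
        have h8 := hnint x1 (fun h9 => h5 (by
          have h10 : (c x1 : ℝ) = (c (bar x1) : ℝ) := sub_eq_zero.1 h9
          exact_mod_cast h10))
        nlinarith [hpos x0, hpos x1]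
      · refine ⟨x0, ?_⟩
        have h6 := quad_lower (bar := bar) (B := BB p a π jp) bar_bar bar_ne
          (BB_bar_bar jp hw) hpos n hn x0
        have h7 : 4 ≤ n x0 ^ 2 := by
          rw [Nat.not_odd_iff_even] at hodd
          have h8 : Even ((c x0 : ℤ) - (c (bar x0) : ℤ)) := by
            have h9 : Even ((c x0 : ℤ) + (c (bar x0) : ℤ)) := by exact_mod_cast hodd
            rw [Int.even_sub, ← Int.even_add]
            exact h9
          obtain ⟨r, hr⟩ := h8
          have hr0 : r ≠ 0 := by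
            intro h9
            apply hx0
            have h10 : (((c x0 : ℤ) - (c (bar x0) : ℤ) : ℤ) : ℝ) = 0 := by
              rw [hr, h9]
              norm_num
            push_cast at h10
            exact h10
          have h9 : n x0 = 2 * (r : ℝ) := by
            have h10 : (((c x0 : ℤ) - (c (bar x0) : ℤ) : ℤ) : ℝ) = ((r + r : ℤ) : ℝ) := by rw [hr]
            push_cast at h10
            simp only [n]
            linarith
          have h10 : (1 : ℝ) ≤ (r : ℝ) ^ 2 := by
            have h11 : 1 ≤ r ^ 2 := by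
              have h12 := Int.one_le_abs hr0
              have h13 : |r| ^ 2 = r ^ 2 := sq_abs _
              nlinarith
            exact_mod_cast h11
          rw [h9]
          nlinarith
        nlinarith [hpos x0]
    obtain ⟨x1, hx1⟩ := hsum
    rw [hS, BB_self, BB_self] at hx1
    have h3 := mul_lt_mul_of_pos_left (h1 x1.1) hG0
    change G * deviation p (j β) < G * (weilDeviation p a (π x0.1) +
      weilDeviation p a (π x1.1)) at h3
    linarith

end

end Pool.Agent.Q70.SQ
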