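import Mathlib
import Pool.Agent.Q70.SQ.Forces

/-!
# Tate classes on products with varieties whose slopes have small deviation
-/

set_option autoImplicit false
set_option linter.unusedSectionVars false
set_option linter.unusedVariables false

namespace Pool.Agent.Q70.SQ

open NumberField Module TensorProduct IntermediateField
open Pool.Agent.H204R3.CM Pool.Agent.H204R3.SP Pool.Agent.H204R3.GP Pool.Agent.Y137.MV
  Pool.Agent.Y137.SL Pool.Agent.Y1.CT

noncomputable section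

variable {p : ℕ} [Fact p.Prime] {a : ℕ} {ι : Type} [Fintype ι] {F : ι → Type}
  [∀ i, Field (F i)] [∀ i, NumberField (F i)] [∀ i, IsCMField (F i)] {π : ∀ i, F i}

section

variable {L : Type*} [Field L] [NumberField L] [IsGalois ℚ L] (j : L →+* ℂ)
  (h : ∀ i, ∀ ψ : F i →+* ℂ, ∃ φ : F i →+* L, j.comp φ = ψ) (jp : L →+* PadicAlgCl p)
  (hw : ∀ i, π i * IsCMField.complexConj (F i) (π i) = (p : F i) ^ a)

include j h hw in
theorem BB_pos (hns : ∀ i, HasOtherSlope p a (π i)) (x : Σ i, (F i →+* L)) :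
    0 < BB p a π jp x x := by
  obtain ⟨i, φ⟩ := x
  obtain ⟨τ, hτ⟩ := hns i
  obtain ⟨φ', hφ'⟩ := exists_factor j (h i) jp τ
  have hu : uu p a π jp ⟨i, φ'⟩ ≠ 0 := by
    intro h1
    apply hτ
    have h2 : ‖τ (π i)‖ = ‖jp (val π (⟨i, φ'⟩ : Σ i, (F i →+* L)))‖ := by
      rw [← hφ']
      rfl
    have h3 : 2 * Real.log ‖jp (val π (⟨i, φ'⟩ : Σ i, (F i →+* L)))‖ -
        Real.log ‖(p : PadicAlgCl p) ^ a‖ = 0 := h1
    rw [h2]
    have h4 : Real.log (‖jp (val π (⟨i, φ'⟩ : Σ i, (F i →+* L)))‖ ^ 2) =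
        Real.log ‖(p : PadicAlgCl p) ^ a‖ := by
      rw [Real.log_pow]
      push_cast
      linarith
    have h5 : 0 < ‖jp (val π (⟨i, φ'⟩ : Σ i, (F i →+* L)))‖ ^ 2 :=
      pow_pos (norm_pos_iff.2 (norm_ne_zero_iff.1 (norm_val_ne jp hw _))) 2
    exact Real.log_injOn_pos h5 (norm_q_pos p a) h4
  obtain ⟨g, hg⟩ := MulAction.exists_smul_eq (L ≃ₐ[ℚ] L) φ φ'
  rw [BB]
  refine Finset.sum_pos' (fun σ _ => mul_self_nonneg _) ⟨g, Finset.mem_univ _, ?_⟩
  have h1 : g • (⟨i, φ⟩ : Σ i, (F i →+* L)) = ⟨i, φ'⟩ := Sigma.ext rfl (heq_of_eq hg)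
  rw [h1]
  exact mul_self_pos.2 hu

end

/-- Absolute irreducibility and the existence of a slope different from `1 / 2` imply maximal angle
rank. -/
theorem angle_of_abs (ha : 0 < a)
    (hw : ∀ i, π i * IsCMField.complexConj (F i) (π i) = (p : F i) ^ a)
    (habs : ∀ i, OddAbsolutelyIrreducible (F i))
    (hun : ∀ i i', i ≠ i' → Unrelated (F i) (F i')) (hns : ∀ i, HasOtherSlope p a (π i)) :
    MaximalAngleRank (p ^ a) π := by
  classical
  intro r n hrel i φ
  obtain ⟨L, hLa, hLb, j, h, -⟩ := exists_galois_roots F (1 : Polynomial ℚ) one_ne_zero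
  let jp : L →ₐ[ℚ] PadicAlgCl p := IsAlgClosed.lift
  let J : (Σ i, (F i →+* L)) ≃ Σ i, (F i →+* ℂ) :=
    Equiv.sigmaCongrRight fun i => embEquiv j (h i)
  have hJ : ∀ x : Σ i, (F i →+* L), (J x).2 (π (J x).1) = j (val π x) := fun x => rfl
  have hp0 : (0 : ℝ) < p := Nat.cast_pos.2 (Fact.out : p.Prime).pos
  have hlogp : 0 < (a : ℝ) * Real.log p :=
    mul_pos (Nat.cast_pos.2 ha) (Real.log_pos (by exact_mod_cast (Fact.out : p.Prime).one_lt))
  -- the relation in `L`
  have hL : ∏ x : Σ i, (F i →+* L), (val π x) ^ (n (J x)) = ((p : L) ^ a) ^ r := by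
    apply j.injective
    rw [map_prod, map_zpow₀, map_pow, map_natCast]
    have h1 : ∏ x : Σ i, (F i →+* L), j ((val π x) ^ (n (J x))) =
        ∏ y : Σ i, (F i →+* ℂ), (y.2 (π y.1)) ^ (n y) :=
      Fintype.prod_equiv J _ _ fun x => by rw [map_zpow₀, hJ]
    rw [h1, hrel]
    push_cast
    rfl
  have hlog : ∀ (E : Type) [NormedField E] (f : L →+* E), (∀ x, ‖f (val π x)‖ ≠ 0) →
      ∑ x : Σ i, (F i →+* L), (n (J x) : ℝ) * Real.log ‖f (val π x)‖ =
        r * Real.log ‖(p : E) ^ a‖ := by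
    intro E _ f hf
    have h1 := congrArg (fun z => Real.log ‖f z‖) hL
    simp only [map_prod, map_zpow₀, norm_prod, norm_zpow, Real.log_zpow, map_pow, map_natCast] at h1
    rw [Real.log_prod (fun x _ => zpow_ne_zero _ (hf x))] at h1
    simp only [Real.log_zpow] at h1
    exact h1
  have hc : ∑ x : Σ i, (F i →+* L), (n (J x) : ℝ) = 2 * r := by
    have hne : ∀ x : Σ i, (F i →+* L), ‖j (val π x)‖ ≠ 0 := by
      intro x h2
      have h3 := norm_val j hw x
      rw [h2] at h3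
      have h4 : (0 : ℝ) < (p : ℝ) ^ a := pow_pos hp0 a
      norm_num at h3
      linarith
    have h1 := hlog ℂ j hne
    have h2 : ∀ x : Σ i, (F i →+* L), Real.log ‖j (val π x)‖ = (a : ℝ) * Real.log p / 2 := by
      intro x
      have h3 := congrArg Real.log (norm_val j hw x)
      rw [Real.log_pow, Real.log_pow] at h3
      push_cast at h3
      linarith
    have h3 : Real.log ‖((p : ℕ) : ℂ) ^ a‖ = (a : ℝ) * Real.log p := by
      rw [norm_pow, Real.log_pow, Complex.norm_natCast]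
    rw [Finset.sum_congr rfl fun x _ => by rw [h2 x], ← Finset.sum_mul, h3] at h1
    have h4 : (∑ x : Σ i, (F i →+* L), (n (J x) : ℝ) - 2 * r) * ((a : ℝ) * Real.log p) = 0 := by
      linarith
    have h5 := (mul_eq_zero.1 h4).resolve_right hlogp.ne'
    linarith
  have hzero : ∀ σ : L ≃ₐ[ℚ] L, ∑ x : Σ i, (F i →+* L), (n (J x) : ℝ) *
      uu p a π (jp : L →+* PadicAlgCl p) (σ • x) = 0 := by
    intro σ
    have h1 := hlog (PadicAlgCl p) ((jp : L →+* PadicAlgCl p).comp (σ : L →+* L))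
      (fun x => norm_val_ne (jp : L →+* PadicAlgCl p) hw (σ • x))
    have h2 : ∀ x : Σ i, (F i →+* L), (n (J x) : ℝ) * uu p a π (jp : L →+* PadicAlgCl p) (σ • x) =
        2 * ((n (J x) : ℝ) * Real.log ‖((jp : L →+* PadicAlgCl p).comp (σ : L →+* L)) (val π x)‖) -
        (n (J x) : ℝ) * Real.log ‖(p : PadicAlgCl p) ^ a‖ := by
      intro x
      rw [uu]
      have h3 : ((jp : L →+* PadicAlgCl p).comp (σ : L →+* L)) (val π x) =
        (jp : L →+* PadicAlgCl p) (val π (σ • x)) := rfl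
      rw [h3]
      ring
    rw [Finset.sum_congr rfl fun x _ => h2 x, Finset.sum_sub_distrib, ← Finset.mul_sum, h1,
      ← Finset.sum_mul, hc]
    ring
  have h1 := sum_sq j h (jp : L →+* PadicAlgCl p) hw habs hun (fun x => (n (J x) : ℝ))
  have h2 : ∑ σ : L ≃ₐ[ℚ] L, (∑ x : Σ i, (F i →+* L), (n (J x) : ℝ) *
      uu p a π (jp : L →+* PadicAlgCl p) (σ • x)) ^ 2 = 0 :=
    Finset.sum_eq_zero fun σ _ => by rw [hzero, zero_pow two_ne_zero]
  rw [h2] at h1
  have h3 : ∑ x : Σ i, (F i →+* L), ((n (J x) : ℝ) - (n (J (bar x)) : ℝ)) ^ 2 *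
      BB p a π (jp : L →+* PadicAlgCl p) x x = 0 := by linarith
  obtain ⟨φ', rfl⟩ := h i φ
  have h4 := (Finset.sum_eq_zero_iff_of_nonneg (fun x _ => mul_nonneg (sq_nonneg _)
    (BB_nonneg (jp : L →+* PadicAlgCl p) x))).1 h3 ⟨i, φ'⟩ (Finset.mem_univ _)
  have h5 := (mul_eq_zero.1 h4).resolve_right
    (BB_pos j h (jp : L →+* PadicAlgCl p) hw hns _).ne'
  have h6 := sub_eq_zero.1 (pow_eq_zero_iff two_ne_zero |>.1 h5)
  have h7 : J (bar ⟨i, φ'⟩) = ⟨i, ComplexEmbedding.conjugate (j.comp φ')⟩ := by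
    change (⟨i, j.comp (cbar φ')⟩ : Σ i, (F i →+* ℂ)) = _
    rw [comp_cbar]
  rw [h7] at h6
  exact_mod_cast h6

/-- **The Tate classes on `A ^ n × U`**, where the slopes of `U` have small deviation or the eigenvalues
are unrelated to the fields. -/
theorem split_of_deviation (ha : 0 < a) (hgen : ∀ i, ℚ⟮π i⟯ = ⊤)
    (hw : ∀ i, π i * IsCMField.complexConj (F i) (π i) = (p : F i) ^ a)
    (habs : ∀ i, OddAbsolutelyIrreducible (F i))
    (hunr : ∀ i i', i ≠ i' → Unrelated (F i) (F i')) (hns : ∀ i, HasOtherSlope p a (π i))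
    {k : Type*} [Field k] [CharZero k] {V : Type*} [AddCommGroup V] [Module k V]
    [FiniteDimensional k V] {M : Type*} [AddCommGroup M] [Module k M] [FiniteDimensional k M]
    {Γ : Type*} [Group Γ] (ρ : Representation k Γ V) (τ : Representation k Γ M) (χ : Γ →* k)
    (γ : Γ) (hp : IsPolarised ρ χ γ p a π) (f : Polynomial ℚ) (hf0 : f ≠ 0)
    (hfγ : Polynomial.aeval (τ γ) (f.map (algebraMap ℚ k)) = 0)
    (hf : ∀ α : ℂ, Polynomial.aeval α f = 0 → ∀ i,
      UnrelatedTo (F i) α ∨ SmallDeviation p a π α i) : ClassesSplit ρ χ τ := by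
  classical
  obtain ⟨hss, ⟨ω, halt, hnd, hωρ⟩, hχ, hγ⟩ := hp
  have hang := angle_of_abs ha hw habs hunr hns
  have hπ0 : ∀ i, π i ≠ 0 := by
    intro i h0
    have h1 := hw i
    rw [h0, zero_mul] at h1
    exact pow_ne_zero a (Nat.cast_ne_zero.2 (Fact.out : p.Prime).ne_zero) h1.symm
  obtain ⟨L, hLa, hLb, j, h, hroots⟩ := exists_galois_roots F f hf0
  let jp : L →ₐ[ℚ] PadicAlgCl p := IsAlgClosed.lift
  have hneat : Neat p a π L := neat_of_angle j hang
  have hun : ∀ β : L, Polynomial.aeval β f = 0 → ∀ i, Forces π β i := by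
    intro β hβ i
    have hα : Polynomial.aeval (j β) f = 0 := by
      have h1 := Polynomial.aeval_algHom_apply (RingHom.equivRatAlgHom L ℂ j) β f
      rw [hβ, map_zero] at h1
      exact h1
    rcases hf (j β) hα i with h1 | h1
    · exact Y1.TS.forces_unrelated j h hπ0 hang β i h1
    · exact forces_of_deviation j h (jp : L →+* PadicAlgCl p) hw habs hunr ha β i h1
  have hss' : ∀ Δ : Subgroup Γ, Δ.FiniteIndex → SemiUnder (ρ '' (Δ : Set Γ)) := by
    intro Δ hΔ U hU
    obtain ⟨U', h1, h2⟩ := hss Δ hΔ U (fun s hs u hu => hU _ ⟨s, hs, rfl⟩ u hu)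
    refine ⟨U', ?_, h1⟩
    rintro _ ⟨s, hs, rfl⟩ u hu
    exact h2 s hs u hu
  constructor
  · intro n m g hg
    have h1 := final_step ρ χ τ g hg (fun l => alt_of_comp ρ χ _ (fun c => by
      have h2 := comp_mem (L := L) ρ χ τ hgen hw j h hneat ω halt hnd hωρ hss' γ hχ hγ hun hroots
        hfγ (component_eqv hg c) l
      exact h2))
    refine Submodule.span_mono ?_ h1
    rintro x ⟨y, ⟨B, hB, hy⟩, w, hw, hx⟩
    refine ⟨B, w, hB, hw, fun v => ?_⟩
    rw [hx, hy]
  · intro n m g hg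
    ext v
    have h1 : v = fun l => ∑ i, Pi.single i (v l i) := by
      funext l
      exact (Finset.univ_sum_single (v l)).symm
    have h2 : g v = ∑ c : Fin (2 * m + 1) → Fin n,
        g.toMultilinearMap.compLinearMap
          (fun l => LinearMap.single k (fun _ : Fin n => V) (c l)) (fun l => v l (c l)) := by
      conv_lhs => rw [h1]
      exact g.toMultilinearMap.map_sum (fun l i => Pi.single i (v l i))
    rw [h2]
    refine Finset.sum_eq_zero fun c _ => ?_
    have h3 := odd_zero (L := L) ρ χ τ hgen hw j h hneat ω halt hnd hωρ γ hχ hγ hun hroots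
        hfγ (κ := Fin (2 * m + 1)) (by
          rw [Fintype.card_fin]
          exact ⟨m, rfl⟩) (component_eqv hg c)
    rw [h3]
    rfl

end

end Pool.Agent.Q70.SQ
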