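import Mathlib
import Pool.Agent.Q70.SQ.Main

/-!
# The deviation of ordinary Weil numbers
-/

set_option autoImplicit false

namespace Pool.Agent.Q70.SQ

open NumberField Module

/-- The Weil number `π` for `p ^ a` is ordinary: all its `p`-adic conjugates have the absolute value
`1` or that of `p ^ a`. -/
def IsOrdinary (p a : ℕ) [Fact p.Prime] {F : Type*} [Field F] [NumberField F] (π : F) : Prop :=
  ∀ x ∈ (minpoly ℚ π).aroots (PadicAlgCl p), ‖x‖ = 1 ∨ ‖x‖ = ‖(p : PadicAlgCl p) ^ a‖

theorem weilDeviation_ordinary {p a : ℕ} [Fact p.Prime] {F : Type*} [Field F] [NumberField F]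
    {π : F} (h : IsOrdinary p a π) : weilDeviation p a π = (a * Real.log p) ^ 2 / 4 := by
  have h1 : ((minpoly ℚ π).aroots (PadicAlgCl p)).map
      (fun x => (Real.log ‖x‖ + (a : ℝ) * Real.log p / 2) ^ 2) =
      ((minpoly ℚ π).aroots (PadicAlgCl p)).map (fun _ => ((a : ℝ) * Real.log p) ^ 2 / 4) := by
    refine Multiset.map_congr rfl fun x hx => ?_
    rcases h x hx with h2 | h2
    · rw [h2, Real.log_one]
      ring
    · rw [h2, log_Q]
      ring
  have h2 : ((minpoly ℚ π).natDegree : ℝ) ≠ 0 := by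
    exact_mod_cast (minpoly.natDegree_pos (Algebra.IsIntegral.isIntegral π)).ne'
  have h3 : ((minpoly ℚ π).aroots (PadicAlgCl p)).card = (minpoly ℚ π).natDegree :=
    IsAlgClosed.card_aroots_eq_natDegree
  rw [weilDeviation, meanSquare, h1, Multiset.map_const', Multiset.sum_replicate, h3,
    nsmul_eq_mul, mul_div_cancel_left₀ _ h2]

end Pool.Agent.Q70.SQ
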