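import Mathlib
import Pool.Agent.Q70.SQ.Main
import Pool.Agent.Q70.SQ.TimesDefs
import Pool.Agent.Y1.CT.UnrelRel

/-!
# Products of Weil numbers and numbers whose slopes have small mean square deviation
-/

set_option autoImplicit false
set_option linter.unusedSectionVars false
set_option linter.unusedVariables false

namespace Pool.Agent.Q70.SQ

open NumberField Module Finset Polynomial IntermediateField
open Pool.Agent.H204R3.CM Pool.Agent.H977R3.CM Pool.Agent.H204R3.SP Pool.Agent.H204R3.GP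
  Pool.Agent.TH170.CM Pool.Agent.TH170.MF Pool.Agent.TH170.FW Pool.Agent.TH170.GS
  Pool.Agent.W484.HS Pool.Agent.TH170 Pool.Agent.Y137.MV Pool.Agent.Y137.SL Pool.Agent.Y1.KN
  Pool.Agent.Y1.CT

variable {p : ℕ} [Fact p.Prime] {a : ℕ} {I : Type} [Fintype I]
  {F : I → Type} [∀ i, Field (F i)] [∀ i, NumberField (F i)] [∀ i, IsCMField (F i)] {π : ∀ i, F i}

theorem good_one : GoodNumber p a π 1 :=
  ⟨one_ne_zero, fun i => Or.inl ((unrelated_one F).2 i)⟩

/-- The exponents in a relation with a number unrelated to `F i` are symmetric. -/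
theorem balanced_unrelated (hang : MaximalAngleRank (p ^ a) π) (hπ0 : ∀ i, π i ≠ 0)
    (cnt : (Σ i, (F i →+* ℂ)) → ℤ) (ρ : ℂ) (hρ0 : ρ ≠ 0) (e : ℤ) (N : ℕ) (hN : 0 < N)
    (hrel : ((∏ y : Σ i, (F i →+* ℂ), (y.2 (π y.1)) ^ cnt y) * ρ) ^ N =
      (((p ^ a : ℕ) : ℂ) ^ e) ^ N) (i : I) (hu : UnrelatedTo (F i) ρ) (φ : F i →+* ℂ) :
    cnt ⟨i, φ⟩ = cnt ⟨i, ComplexEmbedding.conjugate φ⟩ := by
  classical
  let Y : Type := Σ i, (F i →+* ℂ)
  let w : Y → ℂ := fun y => y.2 (π y.1)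
  have hw0 : ∀ y, w y ≠ 0 := fun y => (_root_.map_ne_zero _).2 (hπ0 _)
  have hrel1 : ((∏ y : Y, w y ^ cnt y) * ρ) ^ N = (((p ^ a : ℕ) : ℂ) ^ e) ^ N := hrel
  let m : (F i →+* ℂ) → ℚ := fun ψ =>
    (cnt ⟨i, ψ⟩ : ℚ) - (cnt ⟨i, ComplexEmbedding.conjugate ψ⟩ : ℚ)
  have hodd : ∀ ψ, m (ComplexEmbedding.conjugate ψ) = - m ψ := by
    intro ψ
    simp only [m, conj_conj]
    ring
  have hinv : ∀ τ : ℂ ≃+* ℂ, (∃ t : ℕ, 0 < t ∧ τ (ρ ^ t) = ρ ^ t) →
      ∀ ψ : F i →+* ℂ, m ((τ : ℂ →+* ℂ).comp ψ) = m ψ := by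
    rintro τ ⟨t, ht, hτ⟩ ψ
    let tr : Y ≃ Y :=
      { toFun := fun y => ⟨y.1, (τ : ℂ →+* ℂ).comp y.2⟩
        invFun := fun y => ⟨y.1, (τ.symm : ℂ →+* ℂ).comp y.2⟩
        left_inv := fun y => by
          have h1 : (τ.symm : ℂ →+* ℂ).comp ((τ : ℂ →+* ℂ).comp y.2) = y.2 := by
            ext x
            simp
          exact Sigma.ext rfl (heq_of_eq h1)
        right_inv := fun y => by
          have h1 : (τ : ℂ →+* ℂ).comp ((τ.symm : ℂ →+* ℂ).comp y.2) = y.2 := by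
            ext x
            simp
          exact Sigma.ext rfl (heq_of_eq h1) }
    have hA : (∏ y : Y, w y ^ cnt y) ^ (N * t) * ρ ^ (N * t) =
        (((p ^ a : ℕ) : ℂ) ^ e) ^ (N * t) := by
      rw [← mul_pow, pow_mul, hrel1, ← pow_mul]
    have hB : (∏ y : Y, w (tr y) ^ cnt y) ^ (N * t) * ρ ^ (N * t) =
        (((p ^ a : ℕ) : ℂ) ^ e) ^ (N * t) := by
      have h1 := congrArg τ hA
      rw [map_mul, map_pow τ (∏ y : Y, w y ^ cnt y), map_prod] at h1
      have h2 : τ (ρ ^ (N * t)) = ρ ^ (N * t) := by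
        rw [mul_comm, pow_mul, map_pow, hτ]
      rw [h2] at h1
      have h3 : τ ((((p ^ a : ℕ) : ℂ) ^ e) ^ (N * t)) =
          (((p ^ a : ℕ) : ℂ) ^ e) ^ (N * t) := by
        rw [map_pow, map_zpow₀, map_natCast]
      rw [h3] at h1
      rw [← h1]
      congr 2
      refine Finset.prod_congr rfl fun y _ => ?_
      rw [map_zpow₀]
      rfl
    have hρ0 : ρ ^ (N * t) ≠ 0 := pow_ne_zero _ hρ0
    have hC : (∏ y : Y, w (tr y) ^ cnt y) ^ (N * t) = (∏ y : Y, w y ^ cnt y) ^ (N * t) :=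
      mul_right_cancel₀ hρ0 (hB.trans hA.symm)
    have hD : ∏ y : Y, w (tr y) ^ cnt y = ∏ y : Y, w y ^ cnt (tr.symm y) := by
      refine Fintype.prod_equiv tr _ _ fun y => ?_
      rw [Equiv.symm_apply_apply]
    rw [hD, ← Finset.prod_pow, ← Finset.prod_pow] at hC
    have hE : ∏ y : Y, (y.2 (π y.1)) ^ (((N * t : ℕ) : ℤ) *
        (cnt (tr.symm y) - cnt y)) = (((p ^ a : ℕ)) : ℂ) ^ (0 : ℤ) := by
      have h1 : ∀ y : Y, (y.2 (π y.1)) ^ (((N * t : ℕ) : ℤ) *
          (cnt (tr.symm y) - cnt y)) =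
          (w y ^ cnt (tr.symm y)) ^ (N * t) / (w y ^ cnt y) ^ (N * t) := by
        intro y
        change w y ^ _ = _
        rw [mul_sub, zpow_sub₀ (hw0 y), ← zpow_natCast (w y ^ cnt (tr.symm y)),
          ← zpow_natCast (w y ^ cnt y), ← zpow_mul, ← zpow_mul, mul_comm (cnt (tr.symm y)),
          mul_comm (cnt y)]
      rw [Finset.prod_congr rfl (fun y _ => h1 y), Finset.prod_div_distrib, hC, zpow_zero]
      exact div_self (Finset.prod_ne_zero_iff.2 fun y _ =>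
        pow_ne_zero _ (zpow_ne_zero _ (hw0 y)))
    have hF := hang 0 (fun y => ((N * t : ℕ) : ℤ) * (cnt (tr.symm y) - cnt y)) hE i
      ((τ : ℂ →+* ℂ).comp ψ)
    have hNt : ((N * t : ℕ) : ℤ) ≠ 0 := by
      exact_mod_cast (Nat.mul_pos hN ht).ne'
    have hG := mul_left_cancel₀ hNt hF
    have h4 : tr.symm ⟨i, (τ : ℂ →+* ℂ).comp ψ⟩ = ⟨i, ψ⟩ := by
      rw [Equiv.symm_apply_eq]
      rfl
    have h5 : tr.symm ⟨i, ComplexEmbedding.conjugate ((τ : ℂ →+* ℂ).comp ψ)⟩ =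
        ⟨i, ComplexEmbedding.conjugate ψ⟩ := by
      rw [Equiv.symm_apply_eq]
      change _ = (⟨i, (τ : ℂ →+* ℂ).comp (ComplexEmbedding.conjugate ψ)⟩ : Y)
      rw [QC.comp_conj]
    rw [h4, h5] at hG
    have hH : ((cnt ⟨i, ψ⟩ - cnt ⟨i, (τ : ℂ →+* ℂ).comp ψ⟩ : ℤ) : ℚ) =
        ((cnt ⟨i, ComplexEmbedding.conjugate ψ⟩ -
          cnt ⟨i, ComplexEmbedding.conjugate ((τ : ℂ →+* ℂ).comp ψ)⟩ : ℤ) : ℚ) := by
      rw [hG]
    push_cast at hH
    simp only [m]
    linarith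
  have h0 := hu m hodd hinv
  have h1 : m φ = 0 := by rw [h0]; rfl
  simp only [m] at h1
  have h2 := sub_eq_zero.1 h1
  exact_mod_cast h2

/-- Parity: if the sum of the integers `c x` is even and `c x0`, `c (bar x0)` differ by an odd number
then `c x1`, `c (bar x1)` are different for some other `x1`. -/
theorem exists_other_int {X : Type*} [Fintype X] [DecidableEq X] {bar : X → X}
    (hbar : ∀ x, bar (bar x) = x) (hne : ∀ x, bar x ≠ x) {c : X → ℤ} (hev : Even (∑ x, c x))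
    {x0 : X} (hodd : Odd (c x0 + c (bar x0))) :
    ∃ x1, x1 ≠ x0 ∧ x1 ≠ bar x0 ∧ c x1 ≠ c (bar x1) := by
  by_contra hcon
  push Not at hcon
  rw [← Finset.add_sum_erase _ _ (Finset.mem_univ x0),
    ← Finset.add_sum_erase _ _ (Finset.mem_erase.2 ⟨hne x0, Finset.mem_univ (bar x0)⟩),
    ← add_assoc] at hev
  have h1 : Even (∑ x ∈ (Finset.univ.erase x0).erase (bar x0), c x) := by
    rw [even_iff_two_dvd]
    have h0 := ZMod.intCast_zmod_eq_zero_iff_dvd (∑ x ∈ (Finset.univ.erase x0).erase (bar x0), c x) 2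
    rw [Nat.cast_ofNat] at h0
    rw [← h0]
    push_cast
    refine Finset.sum_involution (fun x _ => bar x) (fun x hx => ?_) (fun x _ _ => hne x)
      (fun x hx => ?_) (fun x _ => hbar x)
    · rw [Finset.mem_erase, Finset.mem_erase] at hx
      rw [← hcon x hx.2.1 hx.1]
      exact CharTwo.add_self_eq_zero _
    · rw [Finset.mem_erase, Finset.mem_erase] at hx ⊢
      exact ⟨fun h => hx.2.1 (by rw [← hbar x, h, hbar]), fun h => hx.1 (by rw [← h, hbar]),
        Finset.mem_univ _⟩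
  have h2 := (Int.even_add.1 hev).2 h1
  exact (Int.not_even_iff_odd.2 hodd) h2

/-- The exponents in a relation with a number of small mean square deviation are symmetric. -/
theorem balanced_deviation (ha : 0 < a)
    (hw : ∀ i, π i * IsCMField.complexConj (F i) (π i) = (p : F i) ^ a)
    (habs : ∀ i, OddAbsolutelyIrreducible (F i))
    (hun : ∀ i i', i ≠ i' → Pool.Agent.Y137.MV.Unrelated (F i) (F i'))
    (cnt : (Σ i, (F i →+* ℂ)) → ℤ) (ρ : ℂ) (e : ℤ) (N : ℕ) (hN : 0 < N)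
    (hrel : ((∏ y : Σ i, (F i →+* ℂ), (y.2 (π y.1)) ^ cnt y) * ρ) ^ N =
      (((p ^ a : ℕ) : ℂ) ^ e) ^ N) (i : I) (hβ : SmallDeviation p a π ρ i) (φ : F i →+* ℂ) :
    cnt ⟨i, φ⟩ = cnt ⟨i, ComplexEmbedding.conjugate φ⟩ := by
  classical
  have hp0 : (0 : ℝ) < p := Nat.cast_pos.2 (Fact.out : p.Prime).pos
  have hlogp : 0 < (a : ℝ) * Real.log p :=
    mul_pos (Nat.cast_pos.2 ha) (Real.log_pos (by exact_mod_cast (Fact.out : p.Prime).one_lt))
  have hπ0 : ∀ i, π i ≠ 0 := by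
    intro i h0
    have h1 := hw i
    rw [h0, zero_mul] at h1
    exact pow_ne_zero a (Nat.cast_ne_zero.2 (Fact.out : p.Prime).ne_zero) h1.symm
  have hq0 : ((p ^ a : ℕ) : ℂ) ≠ 0 := Nat.cast_ne_zero.2 (pow_ne_zero _ (Fact.out : p.Prime).ne_zero)
  have hR0 : (((p ^ a : ℕ) : ℂ) ^ e) ^ N ≠ 0 := pow_ne_zero _ (zpow_ne_zero _ hq0)
  have hP0 : (∏ y : Σ i, (F i →+* ℂ), (y.2 (π y.1)) ^ cnt y) ≠ 0 :=
    Finset.prod_ne_zero_iff.2 fun y _ => zpow_ne_zero _ ((_root_.map_ne_zero _).2 (hπ0 _))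
  have hρ0 : ρ ≠ 0 := by
    rintro rfl
    rw [mul_zero, zero_pow hN.ne'] at hrel
    exact hR0 hrel.symm
  -- `ρ` is algebraic
  have hρ : IsIntegral ℚ ρ := by
    have h1 : ρ ^ N = (((p ^ a : ℕ) : ℂ) ^ e) ^ N /
        (∏ y : Σ i, (F i →+* ℂ), (y.2 (π y.1)) ^ cnt y) ^ N := by
      rw [← hrel, mul_pow, mul_div_cancel_left₀ _ (pow_ne_zero _ hP0)]
    have h2 : ρ ^ N ∈ algebraicClosure ℚ ℂ := by
      rw [h1]
      refine div_mem (pow_mem (zpow_mem (_root_.natCast_mem _ _) _) _)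
        (pow_mem (prod_mem fun y _ => zpow_mem ?_ _) _)
      have h3 : IsIntegral ℚ (π y.1) := Algebra.IsIntegral.isIntegral _
      have h4 := h3.map (RingHom.equivRatAlgHom (F y.1) ℂ y.2)
      exact mem_algebraicClosure_iff.2 h4.isAlgebraic
    exact IsIntegral.of_pow hN (mem_algebraicClosure_iff.1 h2).isIntegral
  obtain ⟨L, hLa, hLb, j, h, hroots⟩ := exists_galois_roots F (minpoly ℚ ρ) (minpoly.ne_zero hρ)
  obtain ⟨β, rfl⟩ := hroots ρ (minpoly.aeval ℚ ρ)
  let jp : L →ₐ[ℚ] PadicAlgCl p := IsAlgClosed.lift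
  let J : (Σ i, (F i →+* L)) ≃ Σ i, (F i →+* ℂ) :=
    Equiv.sigmaCongrRight fun i => embEquiv j (h i)
  have hJ : ∀ x : Σ i, (F i →+* L), (J x).2 (π (J x).1) = j (val π x) := fun x => rfl
  have hJbar : ∀ x : Σ i, (F i →+* L), J (bar x) =
      ⟨(J x).1, ComplexEmbedding.conjugate (J x).2⟩ := by
    rintro ⟨i, φ'⟩
    change (⟨i, j.comp (cbar φ')⟩ : Σ i, (F i →+* ℂ)) = ⟨i, ComplexEmbedding.conjugate (j.comp φ')⟩
    rw [comp_cbar]
  have hβ0 : β ≠ 0 := fun h0 => hρ0 (by rw [h0, map_zero])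
  -- the relation in `L`
  have hL : ((∏ x : Σ i, (F i →+* L), (val π x) ^ (cnt (J x))) * β) ^ N =
      (((p : L) ^ a) ^ e) ^ N := by
    apply j.injective
    rw [map_pow, map_mul, map_prod, map_pow, map_zpow₀, map_pow, map_natCast]
    have h1 : ∏ x : Σ i, (F i →+* L), j ((val π x) ^ (cnt (J x))) =
        ∏ y : Σ i, (F i →+* ℂ), (y.2 (π y.1)) ^ (cnt y) :=
      Fintype.prod_equiv J _ _ fun x => by rw [map_zpow₀, hJ]
    rw [h1, hrel]
    push_cast
    rfl
  have hlog : ∀ (E : Type) [NormedField E] (f : L →+* E), (∀ x, ‖f (val π x)‖ ≠ 0) →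
      ∑ x : Σ i, (F i →+* L), (cnt (J x) : ℝ) * Real.log ‖f (val π x)‖ + Real.log ‖f β‖ =
        e * Real.log ‖(p : E) ^ a‖ := by
    intro E _ f hf
    have h1 := congrArg (fun z => Real.log ‖f z‖) hL
    simp only [map_pow, map_mul, map_prod, map_zpow₀, norm_pow, norm_mul, norm_prod, norm_zpow,
      Real.log_pow, Real.log_zpow, map_natCast] at h1
    have hfβ : ‖f β‖ ≠ 0 := norm_ne_zero_iff.2 ((_root_.map_ne_zero _).2 hβ0)
    rw [Real.log_mul (Finset.prod_ne_zero_iff.2 fun x _ => zpow_ne_zero _ (hf x)) hfβ,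
      Real.log_prod (fun x _ => zpow_ne_zero _ (hf x))] at h1
    simp only [Real.log_zpow] at h1
    have h2 := mul_left_cancel₀ (Nat.cast_ne_zero.2 hN.ne') h1
    rw [h2, norm_pow, Real.log_pow]
  -- the weight
  set S : ℝ := ∑ x : Σ i, (F i →+* L), (cnt (J x) : ℝ) with hS
  have hjw : ∀ x : Σ i, (F i →+* L), Real.log ‖j (val π x)‖ = (a : ℝ) * Real.log p / 2 := by
    intro x
    have h3 := congrArg Real.log (norm_val j hw x)
    rw [Real.log_pow, Real.log_pow] at h3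
    push_cast at h3
    linarith
  have hlogj : Real.log ‖j β‖ = (e - S / 2) * ((a : ℝ) * Real.log p) := by
    have hne : ∀ x : Σ i, (F i →+* L), ‖j (val π x)‖ ≠ 0 := by
      intro x h2
      have h3 := norm_val j hw x
      rw [h2] at h3
      have h4 : (0 : ℝ) < (p : ℝ) ^ a := pow_pos hp0 a
      norm_num at h3
      linarith
    have h1 := hlog ℂ j hne
    have h3 : Real.log ‖((p : ℕ) : ℂ) ^ a‖ = (a : ℝ) * Real.log p := by
      rw [norm_pow, Real.log_pow, Complex.norm_natCast]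
    rw [Finset.sum_congr rfl fun x _ => by rw [hjw x], ← Finset.sum_mul, h3] at h1
    linarith
  have hrelσ : ∀ σ : L ≃ₐ[ℚ] L, ∑ x : Σ i, (F i →+* L), (cnt (J x) : ℝ) *
      uu p a π (jp : L →+* PadicAlgCl p) (σ • x) =
        -(2 * (Real.log ‖jp (σ β)‖ + Real.log ‖j β‖)) := by
    intro σ
    have h1 := hlog (PadicAlgCl p) ((jp : L →+* PadicAlgCl p).comp (σ : L →+* L))
      (fun x => norm_val_ne (jp : L →+* PadicAlgCl p) hw (σ • x))
    have h2 : ∀ x : Σ i, (F i →+* L), (cnt (J x) : ℝ) * uu p a π (jp : L →+* PadicAlgCl p) (σ • x) =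
        2 * ((cnt (J x) : ℝ) * Real.log ‖((jp : L →+* PadicAlgCl p).comp (σ : L →+* L)) (val π x)‖) -
        (cnt (J x) : ℝ) * Real.log ‖(p : PadicAlgCl p) ^ a‖ := by
      intro x
      rw [uu]
      have h3 : ((jp : L →+* PadicAlgCl p).comp (σ : L →+* L)) (val π x) =
        (jp : L →+* PadicAlgCl p) (val π (σ • x)) := rfl
      rw [h3]
      ring
    rw [Finset.sum_congr rfl fun x _ => h2 x, Finset.sum_sub_distrib, ← Finset.mul_sum,
      ← Finset.sum_mul, ← hS]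
    have h4 : ((jp : L →+* PadicAlgCl p).comp (σ : L →+* L)) β = jp (σ β) := rfl
    rw [h4, log_Q] at h1
    rw [log_Q, hlogj]
    linarith
  -- the sum of the squares
  have hmin : minpoly ℚ (j β) = minpoly ℚ β :=
    minpoly.algHom_eq (RingHom.equivRatAlgHom L ℂ j) j.injective β
  set G : ℝ := (Fintype.card (L ≃ₐ[ℚ] L) : ℝ) with hG
  have hG0 : 0 < G := Nat.cast_pos.2 Fintype.card_pos
  let n : (Σ i, (F i →+* L)) → ℝ := fun x => (cnt (J x) : ℝ) - (cnt (J (bar x)) : ℝ)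
  have hn : ∀ x, n (bar x) = -n x := by
    intro x
    simp only [n, bar_bar]
    ring
  have hnint : ∀ x, n x ≠ 0 → 1 ≤ n x ^ 2 := by
    intro x hx
    have h1 : (cnt (J x) - cnt (J (bar x))) ≠ 0 := by
      intro h2
      apply hx
      have h3 : ((cnt (J x) - cnt (J (bar x)) : ℤ) : ℝ) = 0 := by rw [h2, Int.cast_zero]
      push_cast at h3
      exact h3
    have h2 : 1 ≤ (cnt (J x) - cnt (J (bar x))) ^ 2 := by
      have h3 := Int.one_le_abs h1
      have h4 : |cnt (J x) - cnt (J (bar x))| ^ 2 = (cnt (J x) - cnt (J (bar x))) ^ 2 := sq_abs _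
      nlinarith
    have h3 : ((1 : ℤ) : ℝ) ≤ (((cnt (J x) - cnt (J (bar x))) ^ 2 : ℤ) : ℝ) := by exact_mod_cast h2
    push_cast at h3
    exact h3
  have hS2 : 1 / 2 * ∑ x, n x ^ 2 * BB p a π (jp : L →+* PadicAlgCl p) x x =
      4 * (G * deviation p (j β)) := by
    have h1 := sum_sq j h (jp : L →+* PadicAlgCl p) hw habs hun (fun x => (cnt (J x) : ℝ))
    rw [← h1, deviation, hmin, ← meanSquare_gal (jp : L →+* PadicAlgCl p) β, Finset.mul_sum]
    refine Finset.sum_congr rfl fun σ _ => ?_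
    rw [hrelσ σ]
    have h2 : (jp : L →+* PadicAlgCl p) (σ β) = jp (σ β) := rfl
    rw [h2]
    ring
  obtain ⟨φ', rfl⟩ := h i φ
  by_contra hcon
  let x0 : Σ i, (F i →+* L) := ⟨i, φ'⟩
  have hJ0 : J x0 = ⟨i, j.comp φ'⟩ := rfl
  have hx0 : n x0 ≠ 0 := by
    intro h1
    apply hcon
    have h2 : (cnt (J x0) : ℝ) = (cnt (J (bar x0)) : ℝ) := sub_eq_zero.1 h1
    rw [hJbar x0, hJ0] at h2
    exact_mod_cast h2
  have hpos := BB_nonneg (p := p) (a := a) (π := π) (jp : L →+* PadicAlgCl p)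
  rcases hβ with h1 | ⟨⟨w, hw2⟩, h1⟩
  · have h2 := quad_lower (bar := bar) (B := BB p a π (jp : L →+* PadicAlgCl p)) bar_bar bar_ne
      (BB_bar_bar (jp : L →+* PadicAlgCl p) hw) hpos n hn x0
    rw [hS2, BB_self] at h2
    have h3 : G * deviation p (j β) < G * weilDeviation p a (π i) :=
      mul_lt_mul_of_pos_left h1 hG0
    have h4 := hnint x0 hx0
    have h5 : 0 ≤ BB p a π (jp : L →+* PadicAlgCl p) x0 x0 := hpos x0
    rw [BB_self] at h5
    have h6 : (1 : ℝ) * (4 * (G * weilDeviation p a (π x0.1))) ≤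
        n x0 ^ 2 * (4 * (G * weilDeviation p a (π x0.1))) := mul_le_mul_of_nonneg_right h4 h5
    change G * deviation p (j β) < G * weilDeviation p a (π x0.1) at h3
    linarith
  · -- the sum of the exponents is even
    have hSe : ∑ x : Σ i, (F i →+* L), cnt (J x) = 2 * (e - w) := by
      rw [hw2, Real.log_pow, Real.log_pow] at hlogj
      have h4 : ((w : ℝ) - (e - S / 2)) * ((a : ℝ) * Real.log p) = 0 := by linarith
      have h5 := (mul_eq_zero.1 h4).resolve_right hlogp.ne'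
      have h6 : S = 2 * (e - w) := by linarith
      rw [hS] at h6
      exact_mod_cast h6
    have hsum : ∃ x1 : Σ i, (F i →+* L), BB p a π (jp : L →+* PadicAlgCl p) x0 x0 +
        BB p a π (jp : L →+* PadicAlgCl p) x1 x1 ≤
        1 / 2 * ∑ x, n x ^ 2 * BB p a π (jp : L →+* PadicAlgCl p) x x := by
      by_cases hodd : Odd (cnt (J x0) + cnt (J (bar x0)))
      · obtain ⟨x1, h3, h4, h5⟩ := exists_other_int (bar := bar) bar_bar bar_ne
          (c := fun x => cnt (J x)) (by rw [hSe]; exact even_two_mul _) hodd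
        refine ⟨x1, ?_⟩
        have h6 := quad_lower2 (bar := bar) (B := BB p a π (jp : L →+* PadicAlgCl p)) bar_bar bar_ne
          (BB_bar_bar (jp : L →+* PadicAlgCl p) hw) hpos n hn x0 x1 h3 h4
        have h7 := hnint x0 hx0
        have h8 := hnint x1 (fun h9 => h5 (by
          have h10 : (cnt (J x1) : ℝ) = (cnt (J (bar x1)) : ℝ) := sub_eq_zero.1 h9
          exact_mod_cast h10))
        nlinarith [hpos x0, hpos x1]
      · refine ⟨x0, ?_⟩
        have h6 := quad_lower (bar := bar) (B := BB p a π (jp : L →+* PadicAlgCl p)) bar_bar bar_ne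
          (BB_bar_bar (jp : L →+* PadicAlgCl p) hw) hpos n hn x0
        have h7 : 4 ≤ n x0 ^ 2 := by
          rw [Int.not_odd_iff_even] at hodd
          have h8 : Even (cnt (J x0) - cnt (J (bar x0))) := by
            rw [Int.even_sub, ← Int.even_add]
            exact hodd
          obtain ⟨r, hr⟩ := h8
          have hr0 : r ≠ 0 := by
            intro h9
            apply hx0
            have h10 : ((cnt (J x0) - cnt (J (bar x0)) : ℤ) : ℝ) = 0 := by
              rw [hr, h9]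
              norm_num
            push_cast at h10
            exact h10
          have h9 : n x0 = 2 * (r : ℝ) := by
            have h10 : ((cnt (J x0) - cnt (J (bar x0)) : ℤ) : ℝ) = ((r + r : ℤ) : ℝ) := by rw [hr]
            push_cast at h10
            simp only [n]
            linarith
          have h10 : (1 : ℝ) ≤ (r : ℝ) ^ 2 := by
            have h11 : 1 ≤ r ^ 2 := by
              have h12 := Int.one_le_abs hr0
              have h13 : |r| ^ 2 = r ^ 2 := sq_abs _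
              nlinarith
            exact_mod_cast h11
          rw [h9]
          nlinarith
        nlinarith [hpos x0]
    obtain ⟨x1, hx1⟩ := hsum
    rw [hS2, BB_self, BB_self] at hx1
    have h3 := mul_lt_mul_of_pos_left (h1 x1.1) hG0
    change G * deviation p (j β) < G * (weilDeviation p a (π x0.1) +
      weilDeviation p a (π x1.1)) at h3
    linarith

/-- **There are no relations between the Weil numbers and the good numbers.** -/
theorem noRel_good (ha : 0 < a)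
    (hw : ∀ i, π i * IsCMField.complexConj (F i) (π i) = (p : F i) ^ a)
    (habs : ∀ i, OddAbsolutelyIrreducible (F i))
    (hun : ∀ i i', i ≠ i' → Pool.Agent.Y137.MV.Unrelated (F i) (F i')) (hns : ∀ i, HasOtherSlope p a (π i))
    (f : I → ℤ[X]) (hf : ∀ i, IsPolyOf (π i) (f i)) :
    NoRel f (p ^ a) (GoodNumber p a π) := by
  classical
  have hang := angle_of_abs ha hw habs hun hns
  refine ⟨fun i => (hf i).1, good_one, ?_⟩
  intro s hs ρ hρ n c N hN hn ys hlen hrel hpw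
  have hp0 : (p : ℂ) ≠ 0 := Nat.cast_ne_zero.2 (Fact.out : p.Prime).ne_zero
  have hπ0 : ∀ i, π i ≠ 0 := by
    intro i h0
    have h1 := hw i
    rw [h0, zero_mul] at h1
    exact pow_ne_zero a (Nat.cast_ne_zero.2 (Fact.out : p.Prime).ne_zero) h1.symm
  let Y : Type := Σ i, (F i →+* ℂ)
  let w : Y → ℂ := fun y => y.2 (π y.1)
  have hz : ∀ z : Root f, ∃ y : Y, w y = z := by
    rintro ⟨z, i, hi⟩
    obtain ⟨φ, hφ⟩ := (hf i).2 z hi
    exact ⟨⟨i, φ⟩, hφ⟩
  choose idx hidx using hz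
  let cnt : Y → ℕ := fun y => (ys.map idx).count y
  have hrel1 : ((∏ y : Y, (y.2 (π y.1)) ^ ((s * cnt y : ℕ) : ℤ)) * ρ) ^ N =
      (((p ^ a : ℕ) : ℂ) ^ ((s : ℤ) * c)) ^ N := by
    have h0 : ∏ y : Y, (y.2 (π y.1)) ^ ((s * cnt y : ℕ) : ℤ) = ∏ y : Y, w y ^ (s * cnt y) :=
      Finset.prod_congr rfl fun y _ => zpow_natCast _ _
    rw [h0, ← prod_count idx w (fun z : Root f => (z : ℂ)) (fun z => (hidx z).symm) s ys, zpow_mul,
      zpow_natCast]
    exact hrel
  have hcnt : ∀ y : Y, cnt y = cnt ⟨y.1, ComplexEmbedding.conjugate y.2⟩ := by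
    rintro ⟨i, φ⟩
    have h1 : ((s * cnt ⟨i, φ⟩ : ℕ) : ℤ) =
        ((s * cnt ⟨i, ComplexEmbedding.conjugate φ⟩ : ℕ) : ℤ) := by
      rcases hρ.2 i with h2 | h2
      · exact balanced_unrelated hang hπ0 (fun y => ((s * cnt y : ℕ) : ℤ)) ρ hρ.1 _ N hN hrel1 i h2 φ
      · exact balanced_deviation ha hw habs hun (fun y => ((s * cnt y : ℕ) : ℤ)) ρ _ N hN hrel1 i
          h2 φ
    exact Nat.eq_of_mul_eq_mul_left hs (by exact_mod_cast h1)
  -- the first element of the list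
  obtain ⟨z₀, hz₀⟩ := List.exists_mem_of_length_pos (l := ys) (by omega)
  have h1 : 0 < cnt (idx z₀) := List.count_pos_iff.2 (List.mem_map_of_mem hz₀)
  rw [hcnt] at h1
  obtain ⟨z₁, hz₁, h2⟩ := List.mem_map.1 (List.count_pos_iff.1 h1)
  have hne : z₀ ≠ z₁ := by
    rintro rfl
    have h3 : (idx z₀).2 = ComplexEmbedding.conjugate (idx z₀).2 := by
      have h4 : idx z₀ = ⟨(idx z₀).1, ComplexEmbedding.conjugate (idx z₀).2⟩ := h2
      exact eq_of_heq (Sigma.mk.inj h4).2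
    exact conj_ne _ h3.symm
  have hsymm : Std.Symm (fun y y' : Root f => (y : ℂ) ^ s * (y' : ℂ) ^ s ≠
      ((p ^ a : ℕ) : ℂ) ^ s) := ⟨by
    intro x y h h'
    exact h (by rw [mul_comm]; exact h')⟩
  refine hpw.forall hz₀ hz₁ hne ?_
  have h3 : (z₁ : ℂ) = ComplexEmbedding.conjugate (idx z₀).2 (π (idx z₀).1) := by
    rw [← hidx z₁, h2]
  change (z₀ : ℂ) ^ s * (z₁ : ℂ) ^ s = _
  rw [h3, ← hidx z₀, ← mul_pow]
  congr 1
  have h4 := congrArg (idx z₀).2 (hw (idx z₀).1)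
  rw [map_mul, IsCMField.complexEmbedding_complexConj, map_pow, map_natCast] at h4
  change (idx z₀).2 (π (idx z₀).1) * _ = _
  rw [ComplexEmbedding.conjugate_coe_eq, h4]
  push_cast
  rfl

end Pool.Agent.Q70.SQ
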