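import Mathlib
import Pool.Agent.Y1.CT.CodimNum
import Pool.Agent.Q70.SQ.TimesDefs
import Pool.Agent.Q70.SQ.Pair

/-!
# Products of abelian varieties with varieties whose slopes have small mean square deviation: the Tate
conjecture and homological equivalence
-/

set_option autoImplicit false
set_option linter.unusedSectionVars false
set_option linter.unusedVariables false

open CategoryTheory AlgebraicGeometry

universe u v w

namespace Pool.Agent.Q70.SQ

open Module Polynomial NumberField Pool.Agent.H914 Pool.Agent.H914.VarClass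
  Pool.Agent.H914.VarClass.Obj Pool.Agent.W492.BB Pool.Agent.W550.Corr Pool.Agent.W484.HS
  Pool.Agent.W484.CH Pool.Agent.Y1.CT

section

variable {I : Type} {q : ℕ} (hq : 1 < q) {f : I → ℤ[X]} {R : ℂ → Prop} (hR : NoRel f q R)

include hq hR

theorem tateFor_of : TateFor (fun χ => ∀ ρ : ℂ, aeval ρ χ = 0 → R ρ) q f := by
  intro k _ 𝒱 C _ F _ _ _ H _ A Z πA πZ hsit c
  obtain ⟨J, hJ, deg, D, E', hne, hdual, hD, hK⟩ := kunneth_gen hq hR
    (W484.CK.isStandard_bridge hsit.standard) one_pos (W484.CK.isAbelian_bridge hsit.abelian)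
    (πZ := πZ) hsit.eigen
  have hQ : q ^ 1 ≠ 0 := pow_ne_zero _ (by omega)
  have hπA := W484.CK.isFrobenius_bridge hsit.abelian.frobenius
  have hS := W484.CK.isStandard_bridge hsit.standard
  have h1 := tateIn_prod_iff hS hdual hQ hπA hK hD c
  have h2 := strongTateIn_prod_iff hS hdual hQ hπA hK hD c
  simp only [pow_one] at h1 h2
  exact ⟨h1, h2⟩

theorem homNumFor_of : HomNumFor (fun χ => ∀ ρ : ℂ, aeval ρ χ = 0 → R ρ) q f := by
  intro k _ 𝒱 C _ F _ _ _ H _ A Z πA πZ hsit hF c
  obtain ⟨J, hJ, deg, D, E', hne, hdual, hD, hK⟩ := kunneth_gen hq hR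
    (W484.CK.isStandard_bridge hsit.standard) one_pos (W484.CK.isAbelian_bridge hsit.abelian)
    (πZ := πZ) hsit.eigen
  have hQ : q ^ 1 ≠ 0 := pow_ne_zero _ (by omega)
  have hπA := W484.CK.isFrobenius_bridge hsit.abelian.frobenius
  have hF' : Pool.Agent.W484.CK.IsFrobenius C (prodMap πA πZ) (q ^ 1) := by
    rw [pow_one]
    exact hF
  exact homNumIn_prod_iff (W484.CK.isStandard_bridge hsit.standard) hdual hQ hπA
    (W484.CK.isFrobenius_bridge hF') hK hD c

end

end Pool.Agent.Q70.SQ
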