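import Mathlib
import Pool.Agent.Q64.HT.Defs
import Pool.Agent.Q70.SQ.TimesDefs

/-!
# The conjectures of Lefschetz and Hodge type for products of abelian varieties with varieties whose
slopes have small mean square deviation: definitions
-/

set_option autoImplicit false

open CategoryTheory AlgebraicGeometry

universe u v

namespace Pool.Agent.Q70.SQ

open Polynomial Pool.Agent.H914 Pool.Agent.H914.VarClass Pool.Agent.H914.VarClass.Obj
  Pool.Agent.H914.WeilCohomology Pool.Agent.H281R3.HT Pool.Agent.W552 Pool.Agent.W484.HS
  Pool.Agent.TH132.A Pool.Agent.Y1.CT

/-- `HodgeTypeFor P q F`: the following holds for every algebraically closed field `k`, every class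
`𝒱` of smooth projective varieties over `k` closed under products, every Weil cohomology `W` with
algebraically closed coefficient field, every polarized abelian variety `A` as in
`IsPolarizedAbelian` (for `s = 1`: `A` comes from the field with `q` elements and is isogenous, over
this field, to a product of powers of abelian varieties with the characteristic polynomials `F i`; the
hard Lefschetz theorem for `A.D` and the positivity of the classes generated by divisors are known),
every variety `Z.X` with a Frobenius endomorphism `g` relative to the same field such that the
eigenvalues of `g` on the cohomology are roots of a polynomial with the property `P`, and every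
divisor `Z.D` on `Z.X` which satisfies the hard Lefschetz theorem: the standard conjecture of Hodge
type holds for `A.X × Z.X` and the divisor `A.D × Z.X + A.X × Z.D` if and only if it holds for `Z.X`
and `Z.D`. -/
def HodgeTypeFor (P : ℚ[X] → Prop) (q : ℕ) {I : Type} (F : I → ℤ[X]) : Prop :=
  ∀ (k : Type) [Field k] [IsAlgClosed k] (𝒱 : VarClass k) (ops : CycleOps 𝒱)
    (W : WeilCohomology.{0, 0} ops) [IsAlgClosed W.K]
    (A Z : Polarized 𝒱) (f : A.X ⟶ A.X) (g : Z.X ⟶ Z.X),
      Q64.HT.IsPolarizedAbelian W q 1 F A f → Q64.HT.EigenvaluesIn P (W.map g) →
      FrobeniusOnCycles W (A.X.prod Z.X) (pairMap f g) (q ^ 1) →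
      Z.X.IsCyc 1 Z.D → HardLefschetz W Z.X Z.D →
      (HodgeType W (A.prod ops Z).X (A.prod ops Z).D ↔ HodgeType W Z.X Z.D)

end Pool.Agent.Q70.SQ
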