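import Mathlib
import Pool.Agent.Q64.HT.Main
import Pool.Agent.Q70.SQ.HodgeDefs
import Pool.Agent.Q70.SQ.Pair

/-!
# The conjecture of Hodge type for products of abelian varieties with varieties whose slopes have small
mean square deviation
-/

set_option autoImplicit false
set_option linter.unusedSectionVars false
set_option linter.unusedVariables false

open CategoryTheory AlgebraicGeometry

universe u v

namespace Pool.Agent.Q70.SQ

open Polynomial Pool.Agent.H914 Pool.Agent.H914.VarClass Pool.Agent.H914.VarClass.Obj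
  Pool.Agent.H914.WeilCohomology Pool.Agent.H281R3.HT Pool.Agent.W552 Pool.Agent.W484.HS
  Pool.Agent.TH132.A Pool.Agent.Y1.CT

variable {I : Type} {q : ℕ} (hq : 1 < q) {f : I → ℤ[X]} {R : ℂ → Prop} (hR : NoRel f q R)

include hR in
theorem pairs_of : Q64.HT.Pairs.{v} (fun χ => ∀ ρ : ℂ, aeval ρ χ = 0 → R ρ) q f := by
  refine ⟨fun ρ hρ => ?_, ?_⟩
  · rw [map_sub, aeval_X, map_one, sub_eq_zero] at hρ
    rw [hρ]
    exact hR.one
  · intro L _ _ s hs χ hχ hrank ρ hρ
    exact Pool.Agent.Y1.CT.exactPair_field f hR.monic q s χ hχ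
      (fun ρ hρ => hR.pair s hs ρ (hrank ρ hρ)) ρ hρ

include hq hR in
theorem hodgeTypeFor_of : HodgeTypeFor (fun χ => ∀ ρ : ℂ, aeval ρ χ = 0 → R ρ) q f := by
  intro k _ _ 𝒱 ops W _ A Z g g' hA hZ hF hB hHL
  exact Q64.HT.hodge_iff hq (pairs_of hR) one_pos hA hZ hF hB hHL

end Pool.Agent.Q70.SQ
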